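import Pool.Agent.LBern26.Doob

set_option linter.unusedSectionVars false

open Finset

namespace Pool.Agent.LBern26

variable {D : Type*} [Fintype D] [DecidableEq D]

lemma level_upper (v : ℝ) (hv : 0 ≤ v) (a : ℝ) (ha : 0 < a) (n : ℕ) :
    ∑ j ∈ range n, (a * 2 ^ j)⁻¹ * min (v ^ 2) ((a * 2 ^ j) ^ 2) ≤ 6 * v := by
  rcases hv.eq_or_lt with h0 | hv0
  · rw [← h0]
    have : ∀ j ∈ range n, (a * 2 ^ j)⁻¹ * min ((0:ℝ) ^ 2) ((a * 2 ^ j) ^ 2) = 0 := by
      intro j _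
      have : min ((0:ℝ) ^ 2) ((a * 2 ^ j) ^ 2) = 0 := by
        rw [zero_pow two_ne_zero]
        exact min_eq_left (by positivity)
      rw [this, mul_zero]
    rw [sum_eq_zero this, mul_zero]
  let G : ℕ → ℝ := fun j => 6 * v * (a * 2 ^ j) / (a * 2 ^ j + v)
  have hterm : ∀ j ∈ range n, (a * 2 ^ j)⁻¹ * min (v ^ 2) ((a * 2 ^ j) ^ 2) ≤ G (j+1) - G j := by
    intro j _
    simp only [G]
    have h2 : a * 2 ^ (j + 1) = 2 * (a * 2 ^ j) := by ring
    rw [h2]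
    have hL : 0 < a * 2 ^ j := by positivity
    generalize a * 2 ^ j = L at hL
    have h3 : 6 * v * (2 * L) / (2 * L + v) - 6 * v * L / (L + v) =
        6 * v ^ 2 * L / ((2 * L + v) * (L + v)) := by
      field_simp
      ring
    rw [h3, le_div_iff₀ (by positivity)]
    rcases le_total L v with h | h
    · have h4 : L⁻¹ * min (v ^ 2) (L ^ 2) = L := by
        rw [min_eq_right (by nlinarith)]
        field_simp
      rw [h4]
      nlinarith [mul_pos hL hv0, mul_nonneg hL.le (sub_nonneg.2 h), sq_nonneg (v - L)]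
    · have h4 : L⁻¹ * min (v ^ 2) (L ^ 2) = v ^ 2 / L := by
        rw [min_eq_left (by nlinarith)]
        field_simp
      rw [h4, div_mul_eq_mul_div, div_le_iff₀ hL]
      have h5 : (2 * L + v) * (L + v) ≤ 6 * L ^ 2 := by nlinarith
      have h6 : 0 ≤ v ^ 2 := by positivity
      nlinarith
  refine (sum_le_sum hterm).trans ?_
  rw [sum_range_sub]
  have h1 : 0 ≤ G 0 := by
    simp only [G]
    positivity
  have h2 : G n ≤ 6 * v := by
    simp only [G]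
    have hL : 0 < a * 2 ^ n := by positivity
    rw [div_le_iff₀ (by positivity)]
    nlinarith
  linarith

lemma level_lower (v : ℝ) (_hv : 0 ≤ v) (a : ℝ) (ha : 0 < a) (n : ℕ) (hn : v < a * 2 ^ n) :
    v ≤ a + 2 * ∑ j ∈ range n, (a * 2 ^ j)⁻¹ * min (v ^ 2) ((a * 2 ^ j) ^ 2) := by
  induction n with
  | zero =>
    simp at hn ⊢
    exact hn.le
  | succ n ih =>
    rw [sum_range_succ]
    have hL : 0 < a * 2 ^ n := by positivity
    have hnn : 0 ≤ (a * 2 ^ n)⁻¹ * min (v ^ 2) ((a * 2 ^ n) ^ 2) := by positivity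
    rcases lt_or_ge v (a * 2 ^ n) with h | h
    · have := ih h
      linarith
    · have h1 : (a * 2 ^ n)⁻¹ * min (v ^ 2) ((a * 2 ^ n) ^ 2) = a * 2 ^ n := by
        rw [min_eq_right (pow_le_pow_left₀ hL.le h 2)]
        field_simp
      have h2 : 0 ≤ ∑ j ∈ range n, (a * 2 ^ j)⁻¹ * min (v ^ 2) ((a * 2 ^ j) ^ 2) := by positivity
      rw [h1]
      have h3 : a * 2 ^ (n + 1) = 2 * (a * 2 ^ n) := by ring
      rw [h3] at hn
      linarith

/-- from level inequalities to means -/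
lemma mean_of_level (Y Z : (D → Bool) → ℝ) (hY : ∀ x, 0 ≤ Y x) (hZ : ∀ x, 0 ≤ Z x) (C : ℝ)
    (hC : 0 ≤ C)
    (h : ∀ lam : ℝ, 0 < lam → mean (fun x => min (Y x ^ 2) (lam ^ 2)) ≤
      C * mean (fun x => min (Z x ^ 2) (lam ^ 2))) :
    mean Y ≤ 12 * C * mean Z := by
  apply le_of_forall_pos_le_add
  intro a ha
  obtain ⟨n, hn⟩ : ∃ n : ℕ, ∀ x, Y x < a * 2 ^ n := by
    obtain ⟨B, hB⟩ : ∃ B : ℝ, ∀ x, Y x ≤ B := ⟨∑ x, Y x, fun x =>
      single_le_sum (f := Y) (fun y _ => hY y) (mem_univ x)⟩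
    obtain ⟨n, hn⟩ := pow_unbounded_of_one_lt (B / a) (by norm_num : (1:ℝ) < 2)
    refine ⟨n, fun x => (hB x).trans_lt ?_⟩
    rw [div_lt_iff₀ ha] at hn
    linarith
  have h1 : mean Y ≤ mean (fun x => a + 2 * ∑ j ∈ range n, (a * 2 ^ j)⁻¹ *
      min (Y x ^ 2) ((a * 2 ^ j) ^ 2)) :=
    mean_mono fun x => level_lower (Y x) (hY x) a ha n (hn x)
  rw [mean_add, mean_const, mean_smul, mean_sum] at h1
  have h2 : ∑ j ∈ range n, mean (fun x => (a * 2 ^ j)⁻¹ * min (Y x ^ 2) ((a * 2 ^ j) ^ 2)) ≤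
      C * ∑ j ∈ range n, mean (fun x => (a * 2 ^ j)⁻¹ * min (Z x ^ 2) ((a * 2 ^ j) ^ 2)) := by
    rw [mul_sum]
    apply sum_le_sum
    intro j _
    rw [mean_smul, mean_smul]
    have hL : 0 < a * 2 ^ j := by positivity
    have := h _ hL
    calc (a * 2 ^ j)⁻¹ * mean (fun x => min (Y x ^ 2) ((a * 2 ^ j) ^ 2)) ≤
        (a * 2 ^ j)⁻¹ * (C * mean (fun x => min (Z x ^ 2) ((a * 2 ^ j) ^ 2))) := by gcongr
      _ = _ := by ring
  have h3 : ∑ j ∈ range n, mean (fun x => (a * 2 ^ j)⁻¹ * min (Z x ^ 2) ((a * 2 ^ j) ^ 2)) ≤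
      6 * mean Z := by
    rw [← mean_sum, ← mean_smul]
    exact mean_mono fun x => level_upper (Z x) (hZ x) a ha n
  have h4 : C * ∑ j ∈ range n, mean (fun x => (a * 2 ^ j)⁻¹ * min (Z x ^ 2) ((a * 2 ^ j) ^ 2)) ≤
      C * (6 * mean Z) := by gcongr
  linarith

end Pool.Agent.LBern26
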