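import Pool.Agent.LBern26.Construct2

set_option linter.unusedSectionVars false

open Finset

namespace Pool.Agent.LBern26

variable {D : Type*} [Fintype D] [DecidableEq D] {ι : Type*} [Fintype ι] [DecidableEq ι]

/-- the kernel -/
noncomputable def theta (T : TW D ι) (τ : Finset ι → (ι → ℕ) → (D → Bool) → ℝ)
    (s : ι → ℕ) : (D → Bool) → ℝ :=
  ∑ V ∈ (univ : Finset ι).powerset, (-1 : ℝ) ^ V.card • (ep T.e (univ \ V) s * τ V s)

lemma theta_slice (T : TW D ι) (τ : Finset ι → (ι → ℕ) → (D → Bool) → ℝ)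
    (hsl : ∀ V s, T.good V s → ∀ k ∈ V, Av (T.Dg k (s k)) (τ V s) =
    Av (T.Dg k (s k)) (rd (T.e k (s k)) * τ (V.erase k) s))
    (s : ι → ℕ) (hs : T.good univ s) (k : ι) :
    Av (T.Dg k (s k)) (theta T τ s) = 0 := by
  have hu : (univ : Finset ι) = insert k (univ.erase k) := (insert_erase (mem_univ k)).symm
  unfold theta
  conv_lhs => rw [hu]
  rw [sum_powerset_insert (notMem_erase _ _), map_add, map_sum, map_sum, ← sum_add_distrib]
  apply sum_eq_zero
  intro V hV
  rw [mem_powerset] at hV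
  have hkV : k ∉ V := fun h => notMem_erase k univ (hV h)
  have h1 : insert k (univ.erase k) = (univ : Finset ι) := insert_erase (mem_univ k)
  rw [h1, map_smul, map_smul, card_insert_of_notMem hkV]
  have hsub : T.good (univ \ insert k V) s := hs.mono (subset_univ _)
  have hk' : k ∉ univ \ insert k V := by simp
  have h2 : univ \ V = insert k (univ \ insert k V) := by
    ext i
    simp only [mem_sdiff, mem_univ, true_and, mem_insert, not_or]
    constructor
    · intro hi
      by_cases hik : i = k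
      · left; exact hik
      · right; exact ⟨hik, hi⟩
    · rintro (h | h)
      · rw [h]; exact hkV
      · exact h.2
  have e1 : Av (T.Dg k (s k)) (ep T.e (univ \ V) s * τ V s) =
      ep T.e (univ \ insert k V) s * Av (T.Dg k (s k)) (rd (T.e k (s k)) * τ V s) := by
    rw [h2, ep_insert _ _ _ _ hk',
      ← (T.ind_ep (univ \ insert k V) s hsub k hk' (s k)).Av_mul]
    congr 1
    ring
  have e2 : Av (T.Dg k (s k)) (ep T.e (univ \ insert k V) s * τ (insert k V) s) =
      ep T.e (univ \ insert k V) s * Av (T.Dg k (s k)) (rd (T.e k (s k)) * τ V s) := by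
    rw [(T.ind_ep (univ \ insert k V) s hsub k hk' (s k)).Av_mul,
      hsl (insert k V) s (hs.mono (subset_univ _)) k (mem_insert_self k V), erase_insert hkV]
  rw [e1, e2, pow_succ]
  simp

lemma AS_zero_of_slice (Dg : ι → ℕ → Finset D) (W : Finset ι) (hW : W.Nonempty) (s : ι → ℕ)
    (g : (D → Bool) → ℝ) (hg : ∀ k, Av (Dg k (s k)) g = 0) : AS Dg W s g = 0 := by
  obtain ⟨k, hk⟩ := hW
  have h1 : W = insert k (W.erase k) := (insert_erase hk).symm
  rw [h1, AS_insert', hg, map_zero]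

lemma AS_theta_mul (Dg : ι → ℕ → Finset D) (s : ι → ℕ)
    (g f : (D → Bool) → ℝ) (hg : ∀ k, Av (Dg k (s k)) g = 0) :
    AS Dg univ s (g * f) = AS Dg univ s (g * NN (fun i => Dg i (s i)) univ f) := by
  have h1 : ∀ W ∈ (univ : Finset ι).powerset.erase ∅, AS Dg univ s
      (g * AW (fun i => Dg i (s i)) W f) = 0 := by
    intro W hW
    rw [mem_erase] at hW
    have hWne := nonempty_iff_ne_empty.2 hW.1
    have e1 : AS Dg univ s (g * AW (fun i => Dg i (s i)) W f) =
        AS Dg univ s (AS Dg W s (g * AW (fun i => Dg i (s i)) W f)) := by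
      unfold AS
      rw [AW_AW, union_eq_left.2 (subset_univ _)]
    rw [e1]
    have e2 : AS Dg W s (g * AW (fun i => Dg i (s i)) W f) =
        AW (fun i => Dg i (s i)) W f * AS Dg W s g := by
      rw [mul_comm]
      exact (AW_ind (fun i => Dg i (s i)) W f).Av_mul g
    rw [e2, AS_zero_of_slice Dg W hWne s g hg, mul_zero, map_zero]
  have h2 : g * NN (fun i => Dg i (s i)) univ f = g * f +
      ∑ W ∈ (univ : Finset ι).powerset.erase ∅, (-1 : ℝ) ^ W.card •
        (g * AW (fun i => Dg i (s i)) W f) := by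
    rw [NN_apply, ← add_sum_erase _ _ (empty_mem_powerset univ), mul_add, mul_sum]
    congr 1
    · simp [AW_empty]
    · apply sum_congr rfl
      intro W _
      rw [mul_smul_comm]
  rw [h2, map_add, map_sum]
  rw [sum_eq_zero, add_zero]
  intro W hW
  rw [map_smul, h1 W hW, smul_zero]

lemma ep_mul_self (e : ι → ℕ → D) (W : Finset ι) (s : ι → ℕ) :
    ep e W s * ep e W s = 1 := by
  funext x
  have := ep_sq e W s x
  rw [pow_two] at this
  exact this

lemma ep_univ_mul (e : ι → ℕ → D) (V : Finset ι) (s : ι → ℕ) :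
    ep e (univ \ V) s * ep e univ s = ep e V s := by
  have h1 : ep e univ s = ep e (univ \ V) s * ep e V s := by
    unfold ep
    rw [prod_sdiff (subset_univ V)]
  rw [h1, ← mul_assoc, ep_mul_self, one_mul]

/-- lower bound for the normalising factor -/
lemma theta_lower (T : TW D ι) (τ : Finset ι → (ι → ℕ) → (D → Bool) → ℝ)
    (β : ℕ → (D → Bool) → ℝ) (C : ℝ) (hC : 1 ≤ C) (hsol : Sol T β C (Fintype.card ι) τ)
    (s : ι → ℕ) (hs : T.good univ s) (x) (κ' : ℝ) (hκ0 : 0 ≤ κ')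
    (hκ : 16 * 4 ^ Fintype.card ι * C * κ' ≤ 1) (hx : AS T.Dg univ s (β 0) x ≤ κ') :
    1 / 2 ≤ AS T.Dg univ s (theta T τ s * ep T.e univ s) x := by
  have h1 : theta T τ s * ep T.e univ s =
      ∑ V ∈ (univ : Finset ι).powerset, (-1 : ℝ) ^ V.card • (ep T.e V s * τ V s) := by
    unfold theta
    rw [sum_mul]
    apply sum_congr rfl
    intro V _
    rw [smul_mul_assoc]
    congr 1
    rw [← ep_univ_mul T.e V s]
    ring
  rw [h1, map_sum, Finset.sum_apply, ← add_sum_erase _ _ (empty_mem_powerset univ)]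
  have h2 : AS T.Dg univ s ((-1 : ℝ) ^ (∅ : Finset ι).card • (ep T.e ∅ s * τ ∅ s)) x =
      1 - AS T.Dg univ s (β 0) x := by
    rw [hsol.empty]
    have : (-1 : ℝ) ^ (∅ : Finset ι).card • (ep T.e ∅ s * fun x => 1 - β 0 x) =
      (fun _ => (1 : ℝ)) - β 0 := by
      unfold ep
      funext x
      simp
    rw [this, map_sub]
    unfold AS
    rw [AW_const, Pi.sub_apply]
  have h4 : (1 : ℝ) ≤ 4 ^ Fintype.card ι := one_le_pow₀ (by norm_num)
  have h3 : ∀ V ∈ (univ : Finset ι).powerset.erase ∅,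
      -(1 / (4 * 2 ^ Fintype.card ι)) ≤
        AS T.Dg univ s ((-1 : ℝ) ^ V.card • (ep T.e V s * τ V s)) x := by
    intro V hV
    rw [mem_erase] at hV
    have hVne := nonempty_iff_ne_empty.2 hV.1
    have hb := hsol.bound V hVne (card_le_univ V) s (hs.mono (subset_univ _)) univ
      (subset_univ _) x
    have hsq : (AS T.Dg univ s ((-1 : ℝ) ^ V.card • (ep T.e V s * τ V s)) x) ^ 2 ≤
        AS T.Dg univ s (fun y => τ V s y ^ 2) x := by
      refine (AW_sq_le _ univ _ x).trans (le_of_eq ?_)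
      have : (fun y => ((-1 : ℝ) ^ V.card • (ep T.e V s * τ V s)) y ^ 2) =
          fun y => τ V s y ^ 2 := by
        funext y
        rw [smul_sq, Pi.mul_apply, mul_pow, ep_sq, one_mul]
      rw [this]
      rfl
    have h5 : (AS T.Dg univ s ((-1 : ℝ) ^ V.card • (ep T.e V s * τ V s)) x) ^ 2 ≤
        (1 / (4 * 2 ^ Fintype.card ι)) ^ 2 := by
      refine hsq.trans (hb.trans ?_)
      have h6 : C * AS T.Dg univ s (β 0) x ≤ C * κ' := by gcongr
      refine h6.trans ?_
      have h7 : ((4 : ℝ) * 2 ^ Fintype.card ι) ^ 2 = 16 * 4 ^ Fintype.card ι := by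
        rw [mul_pow, ← pow_mul, mul_comm (Fintype.card ι) 2, pow_mul]
        norm_num
      rw [one_div, inv_pow, h7, ← one_div, le_div_iff₀ (by positivity)]
      linarith
    exact (abs_le_of_sq_le_sq' h5 (by positivity)).1
  have h5 : -(1 / 4) ≤ ∑ V ∈ (univ : Finset ι).powerset.erase ∅,
      AS T.Dg univ s ((-1 : ℝ) ^ V.card • (ep T.e V s * τ V s)) x := by
    have h6 := sum_le_sum h3
    rw [sum_const, nsmul_eq_mul] at h6
    refine le_trans ?_ h6
    have h7 := card_le_pow (univ : Finset ι)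
    rw [card_univ] at h7
    have h8 : ((((univ : Finset ι).powerset.erase ∅).card : ℕ) : ℝ) *
        (1 / (4 * 2 ^ Fintype.card ι)) ≤ 2 ^ Fintype.card ι * (1 / (4 * 2 ^ Fintype.card ι)) := by
      gcongr
    have h9 : (2 : ℝ) ^ Fintype.card ι * (1 / (4 * 2 ^ Fintype.card ι)) = 1 / 4 := by
      field_simp
    rw [h9] at h8
    linarith
  rw [h2]
  have h6 : κ' ≤ 1 / 16 := by
    have : 1 ≤ 4 ^ Fintype.card ι * C := by nlinarith
    nlinarith
  linarith

/-- the basic pointwise inequality off the exceptional set -/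
lemma a_bound (T : TW D ι) (τ : Finset ι → (ι → ℕ) → (D → Bool) → ℝ)
    (β : ℕ → (D → Bool) → ℝ) (C : ℝ) (hC : 1 ≤ C) (hsol : Sol T β C (Fintype.card ι) τ)
    (s : ι → ℕ) (hs : T.good univ s) (x) (κ' : ℝ) (hκ0 : 0 ≤ κ')
    (hκ : 16 * 4 ^ Fintype.card ι * C * κ' ≤ 1) (hx : AS T.Dg univ s (β 0) x ≤ κ')
    (f : (D → Bool) → ℝ)
    (hf : NN (fun i => T.Dg i (s i)) univ f = ep T.e univ s * AS T.Dg univ s (ep T.e univ s * f)) :
    (AS T.Dg univ s (ep T.e univ s * f) x) ^ 2 ≤
      4 * 2 ^ Fintype.card ι * ∑ V ∈ (univ : Finset ι).powerset,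
        (AS T.Dg univ s (ep T.e (univ \ V) s * (τ V s * f)) x) ^ 2 := by
  have h0 := theta_lower T τ β C hC hsol s hs x κ' hκ0 hκ hx
  have hsl := theta_slice T τ (fun V s hg k hk => hsol.slice V (card_le_univ V) s hg k hk) s hs
  have h1 := AS_theta_mul T.Dg s (theta T τ s) f hsl
  rw [hf] at h1
  have h2 : AS T.Dg univ s (theta T τ s * (ep T.e univ s * AS T.Dg univ s (ep T.e univ s * f))) =
      AS T.Dg univ s (ep T.e univ s * f) * AS T.Dg univ s (theta T τ s * ep T.e univ s) := by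
    have : theta T τ s * (ep T.e univ s * AS T.Dg univ s (ep T.e univ s * f)) =
      AS T.Dg univ s (ep T.e univ s * f) * (theta T τ s * ep T.e univ s) := by ring
    rw [this]
    exact (AW_ind (fun i => T.Dg i (s i)) univ (ep T.e univ s * f)).Av_mul _
  rw [h2] at h1
  have h3 := congrFun h1 x
  rw [Pi.mul_apply] at h3
  have h4 : AS T.Dg univ s (theta T τ s * f) x = ∑ V ∈ (univ : Finset ι).powerset,
      (-1 : ℝ) ^ V.card * AS T.Dg univ s (ep T.e (univ \ V) s * (τ V s * f)) x := by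
    unfold theta
    rw [sum_mul, map_sum, Finset.sum_apply]
    apply sum_congr rfl
    intro V _
    rw [smul_mul_assoc, map_smul, Pi.smul_apply, smul_eq_mul, mul_assoc]
  have h5 : (AS T.Dg univ s (theta T τ s * f) x) ^ 2 ≤ 2 ^ Fintype.card ι *
      ∑ V ∈ (univ : Finset ι).powerset,
        (AS T.Dg univ s (ep T.e (univ \ V) s * (τ V s * f)) x) ^ 2 := by
    rw [h4]
    refine sq_sum_le_card_mul_sum_sq.trans (le_of_eq ?_)
    rw [card_powerset, card_univ]
    push_cast
    congr 1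
    apply sum_congr rfl
    intro V _
    rw [mul_pow, ← pow_mul, mul_comm V.card 2, pow_mul]
    simp
  have h6 : (AS T.Dg univ s (ep T.e univ s * f) x) ^ 2 ≤
      4 * (AS T.Dg univ s (theta T τ s * f) x) ^ 2 := by
    rw [h3, mul_pow]
    have h7 : (1 / 2 : ℝ) ^ 2 ≤ (AS T.Dg univ s (theta T τ s * ep T.e univ s) x) ^ 2 :=
      pow_le_pow_left₀ (by norm_num) h0 2
    nlinarith [sq_nonneg (AS T.Dg univ s (ep T.e univ s * f) x)]
  linarith

/-- contraction -/
lemma mean_AS_sq_le (T : TW D ι) (V : Finset ι) (s : ι → ℕ) (g : (D → Bool) → ℝ) :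
    mean (fun x => (AS T.Dg univ s (ep T.e (univ \ V) s * g) x) ^ 2) ≤
      mean (fun x => (AS T.Dg (univ \ V) s (ep T.e (univ \ V) s * g) x) ^ 2) := by
  have h1 : AS T.Dg univ s (ep T.e (univ \ V) s * g) =
      AS T.Dg univ s (AS T.Dg (univ \ V) s (ep T.e (univ \ V) s * g)) := by
    unfold AS
    rw [AW_AW, union_eq_left.2 (subset_univ _)]
  rw [h1, ← mean_AS T.Dg univ s
    (fun x => (AS T.Dg (univ \ V) s (ep T.e (univ \ V) s * g) x) ^ 2)]
  apply mean_mono
  intro x
  exact AW_sq_le _ _ _ _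

lemma sum_le_SB (J : ι → Finset ℕ) (S : Finset (ι → ℕ)) (hS : ∀ s ∈ S, ∀ i, s i ∈ J i)
    (s0 : ι → ℕ) (g : (ι → ℕ) → ℝ) (hg : ∀ s, 0 ≤ g s) :
    ∑ s ∈ S, g s ≤ SB J univ s0 g := by
  unfold SB
  apply sum_le_sum_of_subset_of_nonneg
  · intro s hs
    rw [Fintype.mem_piFinset]
    intro i
    simpa using hS s hs i
  · intro s _ _
    exact hg s

/-- sum over all levels of the `V`-term -/
lemma term_bound (T : TW D ι) (τ : Finset ι → (ι → ℕ) → (D → Bool) → ℝ)
    (β : ℕ → (D → Bool) → ℝ) (hβ : ∀ j x, β j x = 0 ∨ β j x = 1) (C : ℝ) (hC : 1 ≤ C)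
    (hsol : Sol T β C (Fintype.card ι) τ)
    (f : (D → Bool) → ℝ) (lam : ℝ) (hlam : 0 < lam)
    (hsupp : ∀ V s x, T.good V s → τ V s x ≠ 0 → |f x| ≤ lam) (V : Finset ι)
    (S : Finset (ι → ℕ)) (hS : ∀ s ∈ S, ∀ i, s i ∈ T.J i) :
    ∑ s ∈ S, mean (fun x => (AS T.Dg univ s (ep T.e (univ \ V) s * (τ V s * f)) x) ^ 2) ≤
      mean (fun x => min (f x ^ 2) (lam ^ 2)) + C * (lam ^ 2 * mean (β 0)) := by
  have hβ0 : ∀ x, 0 ≤ β 0 x := fun x => by rcases hβ 0 x with h | h <;> simp [h]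
  have hb : 0 ≤ mean (β 0) := mean_nonneg hβ0
  have hm : 0 ≤ mean (fun x => min (f x ^ 2) (lam ^ 2)) := mean_nonneg fun x => by positivity
  let s0 : ι → ℕ := fun _ => 0
  have h1 : ∑ s ∈ S, mean (fun x => (AS T.Dg univ s (ep T.e (univ \ V) s * (τ V s * f)) x) ^ 2) ≤
      SB T.J univ s0 (fun s =>
        mean (fun x => (AS T.Dg univ s (ep T.e (univ \ V) s * (τ V s * f)) x) ^ 2)) :=
    sum_le_SB T.J S hS s0 _ (fun s => mean_nonneg fun _ => sq_nonneg _)
  refine h1.trans ?_
  have hu : (univ : Finset ι) = V ∪ (univ \ V) := by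
    rw [union_sdiff_of_subset (subset_univ _)]
  have h2 : SB T.J univ s0 (fun s =>
        mean (fun x => (AS T.Dg univ s (ep T.e (univ \ V) s * (τ V s * f)) x) ^ 2)) =
      SB T.J V s0 (fun s => SB T.J (univ \ V) s (fun s =>
        mean (fun x => (AS T.Dg univ s (ep T.e (univ \ V) s * (τ V s * f)) x) ^ 2))) := by
    conv_lhs => rw [hu]
    rw [SB_union T.J V (univ \ V) disjoint_sdiff]
    simp only [union_sdiff_of_subset (subset_univ V)]
  rw [h2]
  have h3 : SB T.J V s0 (fun s => SB T.J (univ \ V) s (fun s =>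
        mean (fun x => (AS T.Dg univ s (ep T.e (univ \ V) s * (τ V s * f)) x) ^ 2))) ≤
      SB T.J V s0 (fun s => mean (fun x => (τ V s * f) x ^ 2)) := by
    apply SB_mono
    intro s _ _
    refine le_trans (SB_mono T.J (univ \ V) s (g' := fun s' => mean (fun x =>
      (AS T.Dg (univ \ V) s' (ep T.e (univ \ V) s' * (τ V s * f)) x) ^ 2)) ?_)
      (T.bessel (univ \ V) s (τ V s * f))
    intro s' _ hs'
    have : τ V s' = τ V s := hsol.loc _ _ _ (fun i hi => hs' i (by simp [hi]))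
    rw [this]
    exact mean_AS_sq_le T V s' _
  refine h3.trans ?_
  rcases V.eq_empty_or_nonempty with hV | hV
  · subst hV
    rw [SB_empty]
    have h4 : mean (fun x => (τ ∅ s0 * f) x ^ 2) ≤ mean (fun x => min (f x ^ 2) (lam ^ 2)) := by
      apply mean_mono
      intro x
      rw [Pi.mul_apply]
      by_cases hx : τ ∅ s0 x = 0
      · rw [hx]
        simp only [zero_mul, ne_eq, OfNat.ofNat_ne_zero, not_false_eq_true, zero_pow]
        positivity
      · have h5 := hsupp ∅ s0 x (by intro i hi; simp at hi) hx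
        have h6 : τ ∅ s0 x = 1 := by
          rw [hsol.empty] at hx ⊢
          rcases hβ 0 x with h | h
          · simp [h]
          · simp [h] at hx
        rw [h6, one_mul]
        apply le_min le_rfl
        rw [← sq_abs]
        exact pow_le_pow_left₀ (abs_nonneg _) h5 2
    have : 0 ≤ C * (lam ^ 2 * mean (β 0)) := by positivity
    linarith
  · have h4 := hsol.sum V hV (card_le_univ V) s0
    have h5 : SB T.J V s0 (fun s => mean (fun x => (τ V s * f) x ^ 2)) ≤
        SB T.J V s0 (fun s => lam ^ 2 * mean (fun x => τ V s x ^ 2)) := by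
      apply SB_mono
      intro s hs _
      rw [← mean_smul]
      apply mean_mono
      intro x
      rw [Pi.mul_apply, mul_pow]
      by_cases hx : τ V s x = 0
      · simp [hx]
      · have h6 := hsupp V s x hs hx
        have h7 : f x ^ 2 ≤ lam ^ 2 := by
          rw [← sq_abs]
          exact pow_le_pow_left₀ (abs_nonneg _) h6 2
        nlinarith [sq_nonneg (τ V s x)]
    rw [SB_smul] at h5
    have h6 : lam ^ 2 * SB T.J V s0 (fun s => mean (fun x => τ V s x ^ 2)) ≤
        lam ^ 2 * (C * mean (β 0)) := by gcongr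
    linarith



lemma cC_one (n : ℕ) : 1 ≤ cC n := by
  cases n with
  | zero => simp [cC]
  | succ n =>
    have h1 := cC_nonneg n
    have h2 : (1 : ℝ) ≤ 4 ^ (n + 1) := one_le_pow₀ (by norm_num)
    simp only [cC]
    nlinarith

noncomputable def kap (N : ℕ) : ℝ := 1 / (8 * 32 ^ N)
noncomputable def kap' (N : ℕ) : ℝ := 1 / (16 * 4 ^ N * cC N)
noncomputable def K1 (N : ℕ) : ℝ := 4 ^ N / (kap N ^ (N + 1)) ^ 2
noncomputable def K2 (N : ℕ) : ℝ := 4 ^ N / (kap' N) ^ 2

/-- the constant in the level inequality -/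
noncomputable def KK (N : ℕ) : ℝ :=
  4 * 4 ^ N * (1 + cC N * K1 N ^ N) + K2 N * K1 N ^ N

lemma kap_pos (N : ℕ) : 0 < kap N := by unfold kap; positivity
lemma kap'_pos (N : ℕ) : 0 < kap' N := by
  have := cC_one N
  unfold kap'; positivity
lemma K1_pos (N : ℕ) : 0 < K1 N := by
  have := kap_pos N
  unfold K1; positivity
lemma K2_pos (N : ℕ) : 0 < K2 N := by
  have := kap'_pos N
  unfold K2; positivity
lemma KK_pos (N : ℕ) : 0 < KK N := by
  have h1 := cC_one N
  have h2 := K1_pos N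
  have h3 := K2_pos N
  unfold KK; positivity

/-- the sequence of enlarged bad sets -/
lemma exists_beta (T : TW D ι) (b0 : (D → Bool) → ℝ) (hb0 : ∀ x, b0 x = 0 ∨ b0 x = 1)
    (c : ℝ) (hc : 0 < c) :
    ∃ b : ℕ → (D → Bool) → ℝ, b 0 = b0 ∧ (∀ j x, b j x = 0 ∨ b j x = 1) ∧
      (∀ j x, b (j+1) x = 0 → ∀ W s, T.good W s → AS T.Dg W s (b j) x ≤ c) ∧
      ∀ j, mean (b (j+1)) ≤ 4 ^ Fintype.card ι / c ^ 2 * mean (b j) := by
  let n : ℕ := (univ : Finset ι).sup fun i => (T.J i).sup id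
  have hn : ∀ i, ∀ t ∈ T.J i, t ≤ n := by
    intro i t ht
    have h1 : t ≤ (T.J i).sup id := le_sup (f := id) ht
    exact h1.trans (le_sup (f := fun i => (T.J i).sup id) (mem_univ i))
  have hanti : ∀ i, Antitone (T.Dg i) := fun i s t hst => T.anti i s t hst
  let X := {β : (D → Bool) → ℝ // ∀ x, β x = 0 ∨ β x = 1}
  have hex : ∀ β : X, ∃ β' : X, (∀ x, β'.1 x = 0 → ∀ W s, T.good W s →
      AS T.Dg W s β.1 x ≤ c) ∧ mean β'.1 ≤ 4 ^ Fintype.card ι / c ^ 2 * mean β.1 := by
    intro β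
    obtain ⟨β', h1, h2, h3⟩ := enlarge T.Dg hanti n β.1 β.2 c hc
    refine ⟨⟨β', h1⟩, ?_, h3⟩
    intro x hx W s hs
    exact h2 x hx W s (fun i hi => hn i _ (hs i hi))
  choose st hst1 hst2 using hex
  refine ⟨fun j => (st^[j] ⟨b0, hb0⟩).1, rfl, fun j x => (st^[j] ⟨b0, hb0⟩).2 x, ?_, ?_⟩
  · intro j x hx W s hs
    simp only [Function.iterate_succ_apply'] at hx
    exact hst1 _ x hx W s hs
  · intro j
    simp only [Function.iterate_succ_apply']
    exact hst2 _

/-- THE LEVEL INEQUALITY -/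
lemma thm_level (T : TW D ι) (S : Finset (ι → ℕ)) (hS : ∀ s ∈ S, ∀ i, s i ∈ T.J i)
    (f : (D → Bool) → ℝ)
    (hf : ∀ s ∈ S, NN (fun i => T.Dg i (s i)) univ f =
      ep T.e univ s * AS T.Dg univ s (ep T.e univ s * f)) (lam : ℝ) (hlam : 0 < lam) :
    mean (fun x => min (∑ s ∈ S, (AS T.Dg univ s (ep T.e univ s * f) x) ^ 2) (lam ^ 2)) ≤
      KK (Fintype.card ι) * mean (fun x => min (f x ^ 2) (lam ^ 2)) := by
  classical
  set N := Fintype.card ι with hN
  have hk := kap_pos N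
  have hk' := kap'_pos N
  have hcC := cC_one N
  have h32 : (1 : ℝ) ≤ 32 ^ N := one_le_pow₀ (by norm_num)
  have hkap : 8 * 32 ^ N * kap N ≤ 1 := by
    unfold kap
    rw [mul_one_div, div_self (by positivity)]
  have hk1 : kap N < 1 := by
    have : 8 * kap N ≤ 1 := by nlinarith
    linarith
  have hkap' : 16 * 4 ^ N * cC N * kap' N ≤ 1 := by
    unfold kap'
    rw [mul_one_div, div_self (by positivity)]
  obtain ⟨b, hb0, hb1, hb2, hb3⟩ := exists_beta T (fun x => if lam < |f x| then 1 else 0)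
    (fun x => by by_cases h : lam < |f x| <;> simp [h]) (kap N ^ (N + 1)) (by positivity)
  -- zero sets decrease
  have hmono : ∀ j x, b (j+1) x = 0 → b j x = 0 := by
    intro j x hx
    have h1 := hb2 j x hx ∅ (fun _ => 0) (by intro i hi; simp at hi)
    unfold AS at h1
    rw [AW_empty] at h1
    rcases hb1 j x with h | h
    · exact h
    · rw [h] at h1
      have : kap N ^ (N + 1) < 1 := pow_lt_one₀ hk.le hk1 (by omega)
      linarith
  have hzero : ∀ j x, b j x = 0 → |f x| ≤ lam := by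
    intro j
    induction j with
    | zero =>
      intro x hx
      rw [hb0] at hx
      by_contra hcon
      rw [not_le] at hcon
      simp [hcon] at hx
    | succ j ih => exact fun x hx => ih x (hmono j x hx)
  let β : ℕ → (D → Bool) → ℝ := fun j => b (N - j)
  have hβ : ∀ j x, β j x = 0 ∨ β j x = 1 := fun j x => hb1 _ x
  have hB : ∀ j < N, ∀ x, β j x = 0 → ∀ W s, T.good W s →
      AS T.Dg W s (β (j+1)) x ≤ kap N ^ (N + 1) := by
    intro j hj x hx W s hs
    have h1 : N - j = (N - (j+1)) + 1 := by omega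
    simp only [β] at hx ⊢
    rw [h1] at hx
    exact hb2 _ x hx W s hs
  obtain ⟨τ, hsol⟩ := exists_sol T β hβ (kap N) hk hkap hB N le_rfl
  have hsupp : ∀ V s x, T.good V s → τ V s x ≠ 0 → |f x| ≤ lam := by
    intro V s x hs hx
    exact hzero _ x (hsol.supp V (card_le_univ V) s hs x hx)
  -- the exceptional set
  obtain ⟨w, hw0, hw1, hw2, hw3⟩ := exists_beta T (β 0) (hβ 0) (kap' N) hk'
  have hβ0 : ∀ x, 0 ≤ β 0 x := fun x => by rcases hβ 0 x with h | h <;> simp [h]
  have hbb : ∀ j x, 0 ≤ b j x := fun j x => by rcases hb1 j x with h | h <;> simp [h]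
  set m := mean (fun x => min (f x ^ 2) (lam ^ 2)) with hm
  have hm0 : 0 ≤ m := mean_nonneg fun x => by positivity
  have hK1 := K1_pos N
  have hK2 := K2_pos N
  have hchain : ∀ j, lam ^ 2 * mean (b j) ≤ K1 N ^ j * m := by
    intro j
    induction j with
    | zero =>
      rw [pow_zero, one_mul, ← mean_smul, hb0]
      apply mean_mono
      intro x
      beta_reduce
      by_cases h : lam < |f x|
      · rw [if_pos h, mul_one]
        apply le_min _ le_rfl
        rw [← sq_abs (f x)]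
        exact pow_le_pow_left₀ hlam.le h.le 2
      · rw [if_neg h, mul_zero]
        positivity
    | succ j ih =>
      have h1 := hb3 j
      have h2 : 4 ^ Fintype.card ι / (kap N ^ (N + 1)) ^ 2 = K1 N := rfl
      rw [h2] at h1
      have h3 : lam ^ 2 * mean (b (j+1)) ≤ lam ^ 2 * (K1 N * mean (b j)) := by gcongr
      calc _ ≤ _ := h3
        _ = K1 N * (lam ^ 2 * mean (b j)) := by ring
        _ ≤ K1 N * (K1 N ^ j * m) := by gcongr
        _ = _ := by ring
  have hβm : lam ^ 2 * mean (β 0) ≤ K1 N ^ N * m := by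
    have := hchain N
    simpa [β] using this
  have hωm : lam ^ 2 * mean (w 1) ≤ K2 N * (K1 N ^ N * m) := by
    have h1 := hw3 0
    rw [hw0] at h1
    have h2 : 4 ^ Fintype.card ι / (kap' N) ^ 2 = K2 N := rfl
    rw [h2] at h1
    calc lam ^ 2 * mean (w 1) ≤ lam ^ 2 * (K2 N * mean (β 0)) := by gcongr
      _ = K2 N * (lam ^ 2 * mean (β 0)) := by ring
      _ ≤ _ := by gcongr
  -- pointwise
  have hpt : ∀ x, min (∑ s ∈ S, (AS T.Dg univ s (ep T.e univ s * f) x) ^ 2) (lam ^ 2) ≤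
      (∑ s ∈ S, 4 * 2 ^ N * ∑ V ∈ (univ : Finset ι).powerset,
        (AS T.Dg univ s (ep T.e (univ \ V) s * (τ V s * f)) x) ^ 2) + lam ^ 2 * w 1 x := by
    intro x
    rcases hw1 1 x with h | h
    · rw [h, mul_zero, add_zero]
      refine (min_le_left _ _).trans ?_
      apply sum_le_sum
      intro s hs
      have hg : T.good univ s := fun i _ => hS s hs i
      have h1 := hw2 0 x h univ s hg
      rw [hw0] at h1
      exact a_bound T τ β (cC N) hcC hsol s hg x (kap' N) hk'.le hkap' h1 f (hf s hs)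
    · rw [h, mul_one]
      refine (min_le_right _ _).trans ?_
      have : 0 ≤ ∑ s ∈ S, 4 * 2 ^ N * ∑ V ∈ (univ : Finset ι).powerset,
        (AS T.Dg univ s (ep T.e (univ \ V) s * (τ V s * f)) x) ^ 2 := by positivity
      linarith
  refine (mean_mono hpt).trans ?_
  rw [mean_add, mean_smul, mean_sum]
  have h1 : ∑ s ∈ S, mean (fun x => 4 * 2 ^ N * ∑ V ∈ (univ : Finset ι).powerset,
        (AS T.Dg univ s (ep T.e (univ \ V) s * (τ V s * f)) x) ^ 2) =
      4 * 2 ^ N * ∑ V ∈ (univ : Finset ι).powerset, ∑ s ∈ S, mean (fun x =>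
        (AS T.Dg univ s (ep T.e (univ \ V) s * (τ V s * f)) x) ^ 2) := by
    rw [sum_comm, mul_sum]
    apply sum_congr rfl
    intro s _
    rw [mean_smul, mean_sum]
  have h2 : ∑ V ∈ (univ : Finset ι).powerset, ∑ s ∈ S, mean (fun x =>
        (AS T.Dg univ s (ep T.e (univ \ V) s * (τ V s * f)) x) ^ 2) ≤
      2 ^ N * (m + cC N * (lam ^ 2 * mean (β 0))) := by
    refine (sum_le_sum (fun V _ => term_bound T τ β hβ (cC N) hcC hsol f lam hlam hsupp V S
      hS)).trans (le_of_eq ?_)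
    rw [sum_const, card_powerset, card_univ, nsmul_eq_mul]
    push_cast
    rfl
  rw [h1]
  have h3 : (4 : ℝ) ^ N = 2 ^ N * 2 ^ N := by
    rw [← mul_pow]; norm_num
  have h4 : cC N * (lam ^ 2 * mean (β 0)) ≤ cC N * (K1 N ^ N * m) := by gcongr
  have h5 : 4 * 2 ^ N * ∑ V ∈ (univ : Finset ι).powerset, ∑ s ∈ S, mean (fun x =>
        (AS T.Dg univ s (ep T.e (univ \ V) s * (τ V s * f)) x) ^ 2) ≤
      4 * 2 ^ N * (2 ^ N * (m + cC N * (K1 N ^ N * m))) := by
    gcongr
    exact h2.trans (by gcongr)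
  unfold KK
  have h6 : 4 * 2 ^ N * (2 ^ N * (m + cC N * (K1 N ^ N * m))) =
      4 * 4 ^ N * (1 + cC N * K1 N ^ N) * m := by
    rw [h3]; ring
  rw [h6] at h5
  calc _ ≤ 4 * 4 ^ N * (1 + cC N * K1 N ^ N) * m + K2 N * (K1 N ^ N * m) := add_le_add h5 hωm
    _ = _ := by ring

end Pool.Agent.LBern26
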