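import Mathlib

open Finset

namespace Pool.Agent.LBern26

variable {D : Type*} [Fintype D] [DecidableEq D]

/-- uniform mean over the cube -/
noncomputable def mean (f : (D → Bool) → ℝ) : ℝ := (∑ x, f x) / Fintype.card (D → Bool)

lemma card_pos' : (0 : ℝ) < Fintype.card (D → Bool) := by
  exact_mod_cast Fintype.card_pos

lemma mean_add (f g : (D → Bool) → ℝ) : mean (fun x => f x + g x) = mean f + mean g := by
  simp [mean, sum_add_distrib, add_div]

lemma mean_smul (c : ℝ) (f : (D → Bool) → ℝ) : mean (fun x => c * f x) = c * mean f := by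
  simp [mean, ← mul_sum, mul_div_assoc]

lemma mean_const (c : ℝ) : mean (fun _ : D → Bool => c) = c := by
  have := (card_pos' (D := D)).ne'
  unfold mean
  rw [sum_const, card_univ, nsmul_eq_mul]
  field_simp

lemma mean_nonneg {f : (D → Bool) → ℝ} (h : ∀ x, 0 ≤ f x) : 0 ≤ mean f :=
  div_nonneg (sum_nonneg fun x _ => h x) card_pos'.le

lemma mean_mono {f g : (D → Bool) → ℝ} (h : ∀ x, f x ≤ g x) : mean f ≤ mean g := by
  unfold mean
  gcongr
  exact h _

lemma mean_sum {α : Type*} (s : Finset α) (f : α → (D → Bool) → ℝ) :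
    mean (fun x => ∑ a ∈ s, f a x) = ∑ a ∈ s, mean (f a) := by
  unfold mean
  rw [sum_comm, sum_div]

lemma eq_zero_of_mean_eq_zero {f : (D → Bool) → ℝ} (h : ∀ x, 0 ≤ f x) (h0 : mean f = 0) (x) :
    f x = 0 := by
  have h1 : ∑ x, f x = 0 := by
    unfold mean at h0
    rcases div_eq_zero_iff.1 h0 with h | h
    · exact h
    · exact absurd h card_pos'.ne'
  exact (sum_eq_zero_iff_of_nonneg fun x _ => h x).1 h1 x (mem_univ x)

lemma mean_sq_le (f : (D → Bool) → ℝ) : (mean f) ^ 2 ≤ mean (fun x => f x ^ 2) := by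
  have hc := card_pos' (D := D)
  have h := sum_mul_sq_le_sq_mul_sq univ f (fun _ : D → Bool => (1 : ℝ))
  simp only [mul_one, one_pow, sum_const, card_univ, nsmul_eq_mul] at h
  unfold mean
  rw [div_pow, div_le_div_iff₀ (by positivity) hc]
  nlinarith [h, hc]

lemma mean_piecewise (T : Finset D) (F : (D → Bool) → ℝ) :
    mean (fun z => mean (fun w => F (T.piecewise w z))) = mean F := by
  have hc := (card_pos' (D := D)).ne'
  unfold mean
  rw [← sum_div, div_div, div_eq_div_iff (by positivity) hc]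
  have key : ∑ z : D → Bool, ∑ w : D → Bool, F (T.piecewise w z) =
      ∑ z : D → Bool, ∑ w : D → Bool, F z := by
    rw [← Fintype.sum_prod_type', ← Fintype.sum_prod_type']
    let e : (D → Bool) × (D → Bool) → (D → Bool) × (D → Bool) :=
      fun p => (T.piecewise p.2 p.1, T.piecewise p.1 p.2)
    have he : Function.Involutive e := by
      intro p
      apply Prod.ext <;> funext d <;> by_cases hd : d ∈ T <;> simp [e, hd]
    exact Fintype.sum_bijective e he.bijective _ _ (fun p => rfl)
  rw [key]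
  simp only [sum_const, card_univ, nsmul_eq_mul, ← mul_sum]
  ring

/-- mean over the digits in `S`, others fixed, as a linear map -/
noncomputable def Av (S : Finset D) : ((D → Bool) → ℝ) →ₗ[ℝ] ((D → Bool) → ℝ) where
  toFun f := fun x => mean (fun z => f (S.piecewise z x))
  map_add' f g := by
    funext x
    exact mean_add _ _
  map_smul' c f := by
    funext x
    exact mean_smul _ _

lemma Av_apply (S : Finset D) (f : (D → Bool) → ℝ) (x : D → Bool) :
    Av S f x = mean (fun z => f (S.piecewise z x)) := rfl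

lemma pw_pw (S T : Finset D) (w z x : D → Bool) :
    T.piecewise w (S.piecewise z x) = (S ∪ T).piecewise (T.piecewise w z) x := by
  funext d
  by_cases h1 : d ∈ T <;> by_cases h2 : d ∈ S <;> simp [h1, h2]

lemma Av_Av (S T : Finset D) (f : (D → Bool) → ℝ) : Av S (Av T f) = Av (S ∪ T) f := by
  funext x
  simp only [Av_apply, pw_pw]
  exact mean_piecewise T (fun u => f ((S ∪ T).piecewise u x))

lemma Av_empty (f : (D → Bool) → ℝ) : Av ∅ f = f := by
  funext x
  simp only [Av_apply, piecewise_empty]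
  exact mean_const _

lemma mean_Av (S : Finset D) (f : (D → Bool) → ℝ) : mean (Av S f) = mean f := by
  exact mean_piecewise S f

lemma Av_mono (S : Finset D) {f g : (D → Bool) → ℝ} (h : ∀ x, f x ≤ g x) (x) :
    Av S f x ≤ Av S g x := mean_mono fun _ => h _

lemma Av_nonneg (S : Finset D) {f : (D → Bool) → ℝ} (h : ∀ x, 0 ≤ f x) (x) :
    0 ≤ Av S f x := mean_nonneg fun _ => h _

lemma Av_sq_le (S : Finset D) (f : (D → Bool) → ℝ) (x) :
    (Av S f x) ^ 2 ≤ Av S (fun y => f y ^ 2) x := mean_sq_le _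

/-- `g` does not depend on the digits in `S`. -/
def Ind (S : Finset D) (g : (D → Bool) → ℝ) : Prop := ∀ z x, g (S.piecewise z x) = g x

lemma Ind.Av_eq {S : Finset D} {g : (D → Bool) → ℝ} (h : Ind S g) : Av S g = g := by
  funext x
  rw [Av_apply]
  simp only [h _ x]
  exact mean_const _

lemma ind_Av {S T : Finset D} (h : S ⊆ T) (f : (D → Bool) → ℝ) : Ind S (Av T f) := by
  intro z x
  simp only [Av_apply, pw_pw]
  congr 1
  funext w
  congr 1
  funext d
  by_cases h1 : d ∈ T
  · simp [h1]
  · have h2 : d ∉ S := fun h' => h1 (h h')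
    simp [h1, h2]

lemma Ind.mono {S T : Finset D} {g : (D → Bool) → ℝ} (h : Ind T g) (hST : S ⊆ T) : Ind S g := by
  rw [← h.Av_eq]
  exact ind_Av hST g

lemma Ind.mul {S : Finset D} {f g : (D → Bool) → ℝ} (hf : Ind S f) (hg : Ind S g) :
    Ind S (f * g) := by
  intro z x
  simp [hf z x, hg z x]

lemma Ind.Av_mul {S : Finset D} {g : (D → Bool) → ℝ} (h : Ind S g) (f : (D → Bool) → ℝ) :
    Av S (g * f) = g * Av S f := by
  funext x
  simp only [Av_apply, Pi.mul_apply, h _ x]
  exact mean_smul _ _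

lemma Av_congr_slice (S : Finset D) (f : (D → Bool) → ℝ) (z x : D → Bool) :
    Av S f (S.piecewise z x) = Av S f x := ind_Av (subset_refl S) f z x

lemma Av_eq_zero_of_nonneg {S : Finset D} {f : (D → Bool) → ℝ} (h : ∀ x, 0 ≤ f x) {x}
    (h0 : Av S f x = 0) (z) : f (S.piecewise z x) = 0 :=
  eq_zero_of_mean_eq_zero (f := fun z => f (S.piecewise z x)) (fun _ => h _) h0 z

end Pool.Agent.LBern26
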