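import Pool.Agent.LBern26.Base

open Finset

namespace Pool.Agent.LBern26

variable {D : Type*} [Fintype D] [DecidableEq D]

lemma mean_mul_Av_of_ind {S : Finset D} {g : (D → Bool) → ℝ} (h : Ind S g)
    (f : (D → Bool) → ℝ) : mean (fun x => g x * f x) = mean (fun x => g x * Av S f x) := by
  have h1 := mean_Av S (g * f)
  rw [h.Av_mul f] at h1
  exact h1.symm

lemma mean_sub (f g : (D → Bool) → ℝ) : mean (fun x => f x - g x) = mean f - mean g := by
  simp [mean, sum_sub_distrib, sub_div]

/-- Doob's maximal inequality in `L^2` for a decreasing sequence of digit sets. -/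
lemma doob (Ds : ℕ → Finset D) (hanti : Antitone Ds) (n : ℕ) (g : (D → Bool) → ℝ)
    (hg : ∀ x, 0 ≤ g x) :
    ∃ G : (D → Bool) → ℝ, (∀ t ≤ n, ∀ x, Av (Ds t) g x ≤ G x) ∧
      mean (fun x => G x ^ 2) ≤ 4 * mean (fun x => Av (Ds n) g x ^ 2) := by
  -- running maximum
  have key : ∀ n : ℕ, ∃ R : (D → Bool) → ℝ, (∀ x, 0 ≤ R x) ∧ Ind (Ds n) R ∧
      (∀ t ≤ n, ∀ x, Av (Ds t) g x ≤ R x) ∧
      0 ≤ mean (fun x => 2 * (R x * Av (Ds n) g x) - R x ^ 2) := by
    intro n
    induction n with
    | zero =>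
      refine ⟨Av (Ds 0) g, Av_nonneg _ hg, ind_Av (subset_refl _) g, ?_, ?_⟩
      · intro t ht x
        rw [Nat.le_zero.1 ht]
      · apply mean_nonneg
        intro x
        nlinarith [sq_nonneg (Av (Ds 0) g x)]
    | succ n ih =>
      obtain ⟨R, hR0, hRi, hRt, hRm⟩ := ih
      refine ⟨fun x => max (R x) (Av (Ds (n+1)) g x), ?_, ?_, ?_, ?_⟩
      · intro x
        exact le_max_of_le_left (hR0 x)
      · intro z x
        have h1 := (hRi.mono (hanti (Nat.le_succ n))) z x
        have h2 := Av_congr_slice (Ds (n+1)) g z x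
        simp only [h1, h2]
      · intro t ht x
        rcases Nat.le_succ_iff.1 ht with h | h
        · exact le_max_of_le_left (hRt t h x)
        · rw [h]
          exact le_max_right _ _
      · have hpt : ∀ x, (2 * (R x * Av (Ds n) g x) - R x ^ 2) +
            (2 * (R x * Av (Ds (n+1)) g x) - 2 * (R x * Av (Ds n) g x)) ≤
            2 * (max (R x) (Av (Ds (n+1)) g x) * Av (Ds (n+1)) g x) -
              max (R x) (Av (Ds (n+1)) g x) ^ 2 := by
          intro x
          rcases le_total (Av (Ds (n+1)) g x) (R x) with h | h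
          · rw [max_eq_left h]
            nlinarith
          · rw [max_eq_right h]
            nlinarith [sq_nonneg (R x - Av (Ds (n+1)) g x)]
        have h1 := mean_mono hpt
        rw [mean_add, mean_sub (fun x => 2 * (R x * Av (Ds (n+1)) g x))
          (fun x => 2 * (R x * Av (Ds n) g x)), mean_smul 2 (fun x => R x * Av (Ds (n+1)) g x),
          mean_smul 2 (fun x => R x * Av (Ds n) g x),
          mean_mul_Av_of_ind hRi (Av (Ds (n+1)) g), Av_Av,
          union_eq_left.2 (hanti (Nat.le_succ n))] at h1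
        linarith
  obtain ⟨R, hR0, hRi, hRt, hRm⟩ := key n
  refine ⟨R, hRt, ?_⟩
  have h1 : mean (fun x => 2 * (R x * Av (Ds n) g x) - R x ^ 2) ≤
      mean (fun x => 2 * Av (Ds n) g x ^ 2 - (1/2) * R x ^ 2) := by
    apply mean_mono
    intro x
    nlinarith [sq_nonneg (2 * Av (Ds n) g x - R x)]
  rw [mean_sub (fun x => 2 * Av (Ds n) g x ^ 2) (fun x => (1/2) * R x ^ 2),
    mean_smul 2 (fun x => Av (Ds n) g x ^ 2), mean_smul (1/2) (fun x => R x ^ 2)] at h1
  linarith

/-- version with all levels `≤ n` and the identity -/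
lemma doob' (Ds : ℕ → Finset D) (hanti : Antitone Ds) (n : ℕ) (g : (D → Bool) → ℝ)
    (hg : ∀ x, 0 ≤ g x) :
    ∃ G : (D → Bool) → ℝ, (∀ x, g x ≤ G x) ∧ (∀ t ≤ n, ∀ x, Av (Ds t) g x ≤ G x) ∧
      mean (fun x => G x ^ 2) ≤ 4 * mean (fun x => g x ^ 2) := by
  obtain ⟨G, h1, h2⟩ := doob (fun t => if t ≤ n then Ds t else ∅) (by
    intro a b hab
    simp only
    split_ifs with h3 h4
    · exact hanti hab
    · exact absurd (hab.trans h3) h4
    · simp
    · simp) (n+1) g hg
  refine ⟨G, ?_, ?_, ?_⟩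
  · intro x
    have := h1 (n+1) le_rfl x
    simpa [Av_empty] using this
  · intro t ht x
    have := h1 t (by omega) x
    simpa [ht] using this
  · simpa [Av_empty] using h2

/-- strong maximal function, dominated form -/
lemma strong_max {ι : Type*} [DecidableEq ι] (Dg : ι → ℕ → Finset D)
    (hanti : ∀ i, Antitone (Dg i)) (n : ℕ) (g : (D → Bool) → ℝ) (hg : ∀ x, 0 ≤ g x)
    (U : Finset ι) :
    ∃ G : (D → Bool) → ℝ, (∀ W ⊆ U, ∀ s : ι → ℕ, (∀ i ∈ W, s i ≤ n) → ∀ x,
      Av (W.biUnion fun i => Dg i (s i)) g x ≤ G x) ∧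
      mean (fun x => G x ^ 2) ≤ 4 ^ U.card * mean (fun x => g x ^ 2) := by
  induction U using Finset.induction_on with
  | empty =>
    refine ⟨g, ?_, by simp⟩
    intro W hW s _ x
    rw [subset_empty.1 hW]
    simp [Av_empty]
  | insert k U hk ih =>
    obtain ⟨G, hG1, hG2⟩ := ih
    have hG0 : ∀ x, 0 ≤ G x := by
      intro x
      have := hG1 ∅ (empty_subset _) (fun _ => 0) (by simp) x
      simp only [biUnion_empty, Av_empty] at this
      exact (hg x).trans this
    obtain ⟨G', h1, h2, h3⟩ := doob' (Dg k) (hanti k) n G hG0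
    refine ⟨G', ?_, ?_⟩
    · intro W hW s hs x
      by_cases hkW : k ∈ W
      · have hW' : W = insert k (W.erase k) := (insert_erase hkW).symm
        have hsub : W.erase k ⊆ U := by
          intro i hi
          have := hW (mem_of_mem_erase hi)
          rcases mem_insert.1 this with h | h
          · exact absurd h (ne_of_mem_erase hi)
          · exact h
        rw [hW', biUnion_insert, ← Av_Av]
        refine (Av_mono _ (fun y => hG1 (W.erase k) hsub s
          (fun i hi => hs i (mem_of_mem_erase hi)) y) x).trans ?_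
        exact h2 _ (hs k hkW) x
      · have hsub : W ⊆ U := by
          intro i hi
          rcases mem_insert.1 (hW hi) with h | h
          · exact absurd (h ▸ hi) hkW
          · exact h
        exact (hG1 W hsub s hs x).trans (h1 x)
    · rw [card_insert_of_notMem hk, pow_succ]
      nlinarith [h3, hG2]

/-- enlarging a bad set -/
lemma enlarge {ι : Type*} [Fintype ι] [DecidableEq ι] (Dg : ι → ℕ → Finset D)
    (hanti : ∀ i, Antitone (Dg i)) (n : ℕ) (β : (D → Bool) → ℝ)
    (hβ : ∀ x, β x = 0 ∨ β x = 1) (c : ℝ) (hc : 0 < c) :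
    ∃ β' : (D → Bool) → ℝ, (∀ x, β' x = 0 ∨ β' x = 1) ∧
      (∀ x, β' x = 0 → ∀ W : Finset ι, ∀ s : ι → ℕ, (∀ i ∈ W, s i ≤ n) →
        Av (W.biUnion fun i => Dg i (s i)) β x ≤ c) ∧
      mean β' ≤ 4 ^ Fintype.card ι / c ^ 2 * mean β := by
  obtain ⟨G, h1, h2⟩ := strong_max Dg hanti n β (fun x => by rcases hβ x with h | h <;> simp [h])
    (univ : Finset ι)
  classical
  refine ⟨fun x => if c < G x then 1 else 0, ?_, ?_, ?_⟩
  · intro x
    by_cases h : c < G x <;> simp [h]
  · intro x hx W s hs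
    have hx' : ¬ c < G x := by
      intro h
      simp [h] at hx
    exact (h1 W (subset_univ _) s hs x).trans (not_lt.1 hx')
  · have h3 : mean (fun x => β x ^ 2) = mean β := by
      congr 1
      funext x
      rcases hβ x with h | h <;> simp [h]
    have h4 : mean (fun x => if c < G x then (1:ℝ) else 0) ≤
        mean (fun x => (1 / c ^ 2) * G x ^ 2) := by
      apply mean_mono
      intro x
      split_ifs with h
      · rw [one_div, inv_mul_eq_div, le_div_iff₀ (by positivity), one_mul]
        exact pow_le_pow_left₀ hc.le h.le 2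
      · positivity
    rw [mean_smul] at h4
    rw [h3, card_univ] at h2
    calc _ ≤ _ := h4
      _ ≤ 1 / c ^ 2 * (4 ^ Fintype.card ι * mean β) := by gcongr
      _ = _ := by ring

end Pool.Agent.LBern26
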