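import Pool.Agent.LBern26.Core
import Pool.Agent.LBern26.Doob

set_option linter.unusedSectionVars false

open Finset

namespace Pool.Agent.LBern26

variable {D : Type*} [Fintype D] [DecidableEq D] {ι : Type*} [Fintype ι] [DecidableEq ι]

/-- sign of a digit -/
noncomputable def rd (e : D) : (D → Bool) → ℝ := fun x => if x e then 1 else -1

lemma rd_sq (e : D) (x : D → Bool) : rd e x * rd e x = 1 := by
  unfold rd; split_ifs <;> norm_num

lemma rd_mul_self (e : D) : rd e * rd e = 1 := by
  funext x
  exact rd_sq e x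

lemma ind_rd {S : Finset D} {e : D} (h : e ∉ S) : Ind S (rd e) := by
  intro z x
  unfold rd
  rw [piecewise_eq_of_notMem _ _ _ h]

lemma mean_rd_mul {e : D} {f : (D → Bool) → ℝ} (hf : Ind {e} f) :
    mean (fun x => rd e x * f x) = 0 := by
  let fl : (D → Bool) ≃ (D → Bool) :=
    { toFun := fun x => Function.update x e (!(x e))
      invFun := fun x => Function.update x e (!(x e))
      left_inv := by intro x; funext e'; by_cases h : e' = e <;> simp [h]
      right_inv := by intro x; funext e'; by_cases h : e' = e <;> simp [h] }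
  have h : ∑ x, rd e x * f x = ∑ x, -(rd e x * f x) := by
    apply Fintype.sum_equiv fl
    intro x
    have h1 : f (fl x) = f x := by
      have : fl x = ({e} : Finset D).piecewise (fl x) x := by
        funext e'
        by_cases he : e' = e
        · subst he; simp
        · rw [piecewise_eq_of_notMem _ _ _ (by simpa using he)]
          simp [fl, Function.update_of_ne he]
      rw [this, hf]
    have h2 : rd e (fl x) = - rd e x := by
      simp only [rd, fl, Equiv.coe_fn_mk, Function.update_self]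
      cases x e <;> simp
    rw [h1, h2]; ring
  have h0 : ∑ x, rd e x * f x = 0 := by
    rw [Finset.sum_neg_distrib] at h; linarith
  simp [mean, h0]

lemma bessel1 (Ds : ℕ → Finset D) (hanti : ∀ s t, s ≤ t → Ds t ⊆ Ds s) (J : Finset ℕ)
    (e : ℕ → D) (hmem : ∀ s ∈ J, e s ∈ Ds s) (hnot : ∀ s ∈ J, ∀ t, s < t → e s ∉ Ds t)
    (G : (D → Bool) → ℝ) :
    ∑ t ∈ J, mean (fun x => (Av (Ds t) (rd (e t) * G) x) ^ 2) ≤ mean (fun x => G x ^ 2) := by
  let a : ℕ → (D → Bool) → ℝ := fun t => Av (Ds t) (rd (e t) * G)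
  let P : ℕ → (D → Bool) → ℝ := fun t x => rd (e t) x * a t x
  have haI : ∀ t, Ind (Ds t) (a t) := fun t => ind_Av (subset_refl _) _
  have h1 : ∀ t, mean (fun x => G x * P t x) = mean (fun x => a t x ^ 2) := by
    intro t
    have := mean_mul_Av_of_ind (haI t) (rd (e t) * G)
    have e1 : (fun x => G x * P t x) = fun x => a t x * (rd (e t) * G) x := by
      funext x
      simp only [P, Pi.mul_apply]
      ring
    rw [e1, this]
    congr 1
    funext x
    simp only [a]
    ring
  have h2 : ∀ t, mean (fun x => P t x * P t x) = mean (fun x => a t x ^ 2) := by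
    intro t
    congr 1
    funext x
    simp only [P]
    linear_combination (a t x ^ 2) * rd_sq (e t) x
  have hlt : ∀ t ∈ J, ∀ u ∈ J, t < u → mean (fun x => P t x * P u x) = 0 := by
    intro t ht u hu htu
    have hne : e t ≠ e u := by
      intro h
      exact hnot t ht u htu (h ▸ hmem u hu)
    have e1 : (fun x => P t x * P u x) = fun x => rd (e u) x * (rd (e t) * (a t * a u)) x := by
      funext x
      simp only [P, Pi.mul_apply]
      ring
    rw [e1]
    apply mean_rd_mul
    apply Ind.mul (ind_rd (by simpa using hne))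
    apply Ind.mul
    · exact (haI t).mono (singleton_subset_iff.2 (hanti t u htu.le (hmem u hu)))
    · exact (haI u).mono (singleton_subset_iff.2 (hmem u hu))
  have h3 : ∀ t ∈ J, ∀ u ∈ J, t ≠ u → mean (fun x => P t x * P u x) = 0 := by
    intro t ht u hu htu
    rcases lt_or_gt_of_ne htu with h | h
    · exact hlt t ht u hu h
    · have := hlt u hu t ht h
      rw [← this]
      congr 1
      funext x
      ring
  have h4 : 0 ≤ mean (fun x => (G x - ∑ t ∈ J, P t x) ^ 2) := mean_nonneg fun _ => sq_nonneg _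
  have h5 : mean (fun x => (G x - ∑ t ∈ J, P t x) ^ 2) =
      mean (fun x => G x ^ 2) - ∑ t ∈ J, mean (fun x => a t x ^ 2) := by
    have e1 : (fun x => (G x - ∑ t ∈ J, P t x) ^ 2) =
        fun x => (G x ^ 2 + (-2) * ∑ t ∈ J, G x * P t x) + ∑ t ∈ J, ∑ u ∈ J, P t x * P u x := by
      funext x
      rw [← sum_mul_sum, ← mul_sum]
      ring
    rw [e1, mean_add, mean_add, mean_smul, mean_sum, mean_sum]
    have e2 : ∑ t ∈ J, mean (fun x => ∑ u ∈ J, P t x * P u x) =
        ∑ t ∈ J, mean (fun x => a t x ^ 2) := by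
      apply sum_congr rfl
      intro t ht
      rw [mean_sum, sum_eq_single t (fun u hu hut => h3 t ht u hu hut.symm)
        (fun h => absurd ht h), h2]
    rw [e2, sum_congr rfl (fun t _ => h1 t)]
    ring
  rw [h5] at h4
  linarith

/-! ### box sums -/

/-- sum over the box `∏_{i ∈ V} J i` with the other coordinates fixed to `s0` -/
noncomputable def SB (J : ι → Finset ℕ) (V : Finset ι) (s0 : ι → ℕ) (g : (ι → ℕ) → ℝ) : ℝ :=
  ∑ s ∈ Fintype.piFinset (fun i => if i ∈ V then J i else {s0 i}), g s

lemma SB_empty (J : ι → Finset ℕ) (s0 : ι → ℕ) (g : (ι → ℕ) → ℝ) : SB J ∅ s0 g = g s0 := by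
  unfold SB
  have : Fintype.piFinset (fun i => if i ∈ (∅ : Finset ι) then J i else {s0 i}) = {s0} := by
    ext s
    simp [funext_iff]
  rw [this, sum_singleton]

lemma SB_insert (J : ι → Finset ℕ) (V : Finset ι) (k : ι) (hk : k ∉ V) (s0 : ι → ℕ)
    (g : (ι → ℕ) → ℝ) :
    SB J (insert k V) s0 g = ∑ t ∈ J k, SB J V (Function.update s0 k t) g := by
  unfold SB
  rw [← sum_fiberwise_of_maps_to (s := Fintype.piFinset (fun i => if i ∈ insert k V then J i
    else {s0 i})) (t := J k) (g := fun s => s k)]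
  · apply sum_congr rfl
    intro t ht
    apply sum_congr _ (fun _ _ => rfl)
    ext s
    simp only [mem_filter, Fintype.mem_piFinset]
    constructor
    · rintro ⟨h1, h2⟩ i
      by_cases hik : i = k
      · subst hik
        simp [hk, h2]
      · have := h1 i
        by_cases hiV : i ∈ V
        · simpa [hiV, hik] using this
        · simpa [hiV, hik, Function.update_of_ne hik] using this
    · intro h
      have hk' := h k
      simp only [hk, if_false, Function.update_self, mem_singleton] at hk'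
      refine ⟨?_, hk'⟩
      intro i
      by_cases hik : i = k
      · subst hik
        simp [hk', ht]
      · have := h i
        by_cases hiV : i ∈ V
        · simpa [hiV, hik] using this
        · simpa [hiV, hik, Function.update_of_ne hik] using this
  · intro s hs
    have := Fintype.mem_piFinset.1 hs k
    simpa using this

lemma SB_union (J : ι → Finset ℕ) (V W : Finset ι) (hVW : Disjoint V W) (s0 : ι → ℕ)
    (g : (ι → ℕ) → ℝ) :
    SB J (V ∪ W) s0 g = SB J V s0 (fun s => SB J W s g) := by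
  induction V using Finset.induction_on generalizing s0 with
  | empty => rw [empty_union, SB_empty]
  | insert k V hk ih =>
    have hkW : k ∉ W := fun h => (Finset.disjoint_left.1 hVW (mem_insert_self k V)) h
    have hVW' : Disjoint V W := hVW.mono_left (subset_insert k V)
    rw [insert_union, SB_insert J (V ∪ W) k (by simp [hk, hkW]), SB_insert J V k hk]
    apply sum_congr rfl
    intro t _
    exact ih hVW' _

lemma SB_mono (J : ι → Finset ℕ) (V : Finset ι) (s0 : ι → ℕ) {g g' : (ι → ℕ) → ℝ}
    (h : ∀ s, (∀ i ∈ V, s i ∈ J i) → (∀ i ∉ V, s i = s0 i) → g s ≤ g' s) :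
    SB J V s0 g ≤ SB J V s0 g' := by
  unfold SB
  apply sum_le_sum
  intro s hs
  rw [Fintype.mem_piFinset] at hs
  apply h
  · intro i hi
    have := hs i
    simpa [hi] using this
  · intro i hi
    have := hs i
    simpa [hi] using this

lemma SB_congr (J : ι → Finset ℕ) (V : Finset ι) (s0 : ι → ℕ) {g g' : (ι → ℕ) → ℝ}
    (h : ∀ s, (∀ i ∈ V, s i ∈ J i) → (∀ i ∉ V, s i = s0 i) → g s = g' s) :
    SB J V s0 g = SB J V s0 g' :=
  le_antisymm (SB_mono J V s0 fun s h1 h2 => (h s h1 h2).le)
    (SB_mono J V s0 fun s h1 h2 => (h s h1 h2).ge)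

/-! ### several coordinates -/

/-- average over the digits `Dg i (s i)`, `i ∈ W` -/
noncomputable def AS (Dg : ι → ℕ → Finset D) (W : Finset ι) (s : ι → ℕ) :
    ((D → Bool) → ℝ) →ₗ[ℝ] ((D → Bool) → ℝ) := AW (fun i => Dg i (s i)) W

/-- product of signs -/
noncomputable def ep (e : ι → ℕ → D) (W : Finset ι) (s : ι → ℕ) : (D → Bool) → ℝ :=
  ∏ i ∈ W, rd (e i (s i))

structure TW (D ι : Type*) [DecidableEq D] where
  Dg : ι → ℕ → Finset D
  J : ι → Finset ℕ
  e : ι → ℕ → D
  anti : ∀ i s t, s ≤ t → Dg i t ⊆ Dg i s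
  disj : ∀ i j, i ≠ j → ∀ s t, Disjoint (Dg i s) (Dg j t)
  mem : ∀ i, ∀ s ∈ J i, e i s ∈ Dg i s
  not_mem : ∀ i, ∀ s ∈ J i, ∀ t, s < t → e i s ∉ Dg i t

variable (T : TW D ι)

lemma AS_congr (Dg : ι → ℕ → Finset D) (W : Finset ι) (s s' : ι → ℕ) (h : ∀ i ∈ W, s i = s' i) :
    AS Dg W s = AS Dg W s' := by
  unfold AS AW
  congr 1
  apply biUnion_congr rfl
  intro i hi
  rw [h i hi]

lemma ep_congr (e : ι → ℕ → D) (W : Finset ι) (s s' : ι → ℕ) (h : ∀ i ∈ W, s i = s' i) :
    ep e W s = ep e W s' := by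
  unfold ep
  apply prod_congr rfl
  intro i hi
  rw [h i hi]

lemma ep_sq (e : ι → ℕ → D) (W : Finset ι) (s : ι → ℕ) (x) : ep e W s x ^ 2 = 1 := by
  unfold ep
  rw [prod_apply, ← prod_pow]
  apply prod_eq_one
  intro i _
  rw [pow_two, rd_sq]

lemma TW.ind_ep (T : TW D ι) (W : Finset ι) (s : ι → ℕ) (hs : ∀ i ∈ W, s i ∈ T.J i) (k : ι)
    (hk : k ∉ W) (t : ℕ) : Ind (T.Dg k t) (ep T.e W s) := by
  unfold ep
  induction W using Finset.induction_on with
  | empty =>
    intro z x
    simp
  | insert i W hi ih =>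
    rw [prod_insert hi]
    apply Ind.mul
    · apply ind_rd
      intro h
      have hne : i ≠ k := fun h' => hk (h' ▸ mem_insert_self i W)
      exact Finset.disjoint_left.1 (T.disj i k hne (s i) t) (T.mem i (s i) (hs i (mem_insert_self i W))) h
    · exact ih (fun j hj => hs j (mem_insert_of_mem hj)) (fun h => hk (mem_insert_of_mem h))

lemma TW.ind_rd (T : TW D ι) (W : Finset ι) (s : ι → ℕ) (k : ι) (hk : k ∉ W) (t : ℕ)
    (ht : t ∈ T.J k) : Ind (W.biUnion fun i => T.Dg i (s i)) (rd (T.e k t)) := by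
  apply LBern26.ind_rd
  intro h
  rw [mem_biUnion] at h
  obtain ⟨i, hi, h⟩ := h
  have hne : k ≠ i := fun h' => hk (h' ▸ hi)
  exact Finset.disjoint_left.1 (T.disj k i hne t (s i)) (T.mem k t ht) h

lemma AS_insert (Dg : ι → ℕ → Finset D) (W : Finset ι) (s : ι → ℕ) (k : ι)
    (f : (D → Bool) → ℝ) : AS Dg (insert k W) s f = Av (Dg k (s k)) (AS Dg W s f) := by
  unfold AS AW
  rw [Av_Av, biUnion_insert]

lemma TW.AS_ep_insert (T : TW D ι) (W : Finset ι) (s : ι → ℕ) (k : ι) (hk : k ∉ W)
    (hsk : s k ∈ T.J k) (F : (D → Bool) → ℝ) :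
    AS T.Dg (insert k W) s (ep T.e (insert k W) s * F) =
      Av (T.Dg k (s k)) (rd (T.e k (s k)) * AS T.Dg W s (ep T.e W s * F)) := by
  rw [AS_insert]
  congr 1
  have h1 : ep T.e (insert k W) s * F = rd (T.e k (s k)) * (ep T.e W s * F) := by
    unfold ep
    rw [prod_insert hk, mul_assoc]
  rw [h1]
  exact (T.ind_rd W s k hk (s k) hsk).Av_mul _

lemma TW.bessel (T : TW D ι) (W : Finset ι) (s0 : ι → ℕ) (F : (D → Bool) → ℝ) :
    SB T.J W s0 (fun s => mean (fun x => (AS T.Dg W s (ep T.e W s * F) x) ^ 2)) ≤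
      mean (fun x => F x ^ 2) := by
  induction W using Finset.induction_on generalizing s0 with
  | empty =>
    rw [SB_empty]
    apply le_of_eq
    congr 1
    funext x
    have : AS T.Dg ∅ s0 (ep T.e ∅ s0 * F) = F := by
      unfold AS ep
      rw [AW_empty, prod_empty, one_mul]
    rw [this]
  | insert k W hk ih =>
    have hins : insert k W = W ∪ {k} := by
      ext i; simp [or_comm]
    rw [hins, SB_union T.J W {k} (by simpa using hk)]
    refine le_trans (SB_mono T.J W s0 (g' := fun s =>
      mean (fun x => (AS T.Dg W s (ep T.e W s * F) x) ^ 2)) ?_) (ih s0)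
    intro s hs _
    have h1 : ({k} : Finset ι) = insert k ∅ := rfl
    rw [h1, SB_insert T.J ∅ k (by simp)]
    simp only [SB_empty]
    have h2 := bessel1 (T.Dg k) (T.anti k) (T.J k) (T.e k) (T.mem k) (T.not_mem k)
      (AS T.Dg W s (ep T.e W s * F))
    refine le_trans (le_of_eq ?_) h2
    apply sum_congr rfl
    intro t ht
    have h3 : ∀ i ∈ W, Function.update s k t i = s i := by
      intro i hi
      rw [Function.update_of_ne]
      intro h
      exact hk (h ▸ hi)
    have h4 : W ∪ insert k ∅ = insert k W := by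
      ext i; simp [or_comm]
    rw [h4, T.AS_ep_insert W _ k hk (by simpa using ht), AS_congr T.Dg W _ s h3,
      ep_congr T.e W _ s h3]
    simp only [Function.update_self]

end Pool.Agent.LBern26
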