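import Pool.Agent.LBern26.Bessel

set_option linter.unusedSectionVars false

open Finset

namespace Pool.Agent.LBern26

variable {D : Type*} [Fintype D] [DecidableEq D] {ι : Type*} [Fintype ι] [DecidableEq ι]

/-- `s` is an admissible level on `V` -/
def TW.good (T : TW D ι) (V : Finset ι) (s : ι → ℕ) : Prop := ∀ i ∈ V, s i ∈ T.J i

lemma TW.good.mono {T : TW D ι} {V W : Finset ι} {s : ι → ℕ} (h : T.good V s) (hWV : W ⊆ V) :
    T.good W s := fun i hi => h i (hWV hi)

lemma Av_rd {S : Finset D} {e : D} (he : e ∈ S) : Av S (rd e) = 0 := by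
  funext x
  rw [Av_apply]
  have h1 : (fun z => rd e (S.piecewise z x)) = fun z => rd e z * 1 := by
    funext z
    unfold rd
    rw [piecewise_eq_of_mem _ _ _ he, mul_one]
  rw [h1]
  exact mean_rd_mul (f := fun _ => 1) (fun _ _ => rfl)

lemma AS_insert' (Dg : ι → ℕ → Finset D) (W : Finset ι) (s : ι → ℕ) (k : ι)
    (f : (D → Bool) → ℝ) : AS Dg (insert k W) s f = AS Dg W s (Av (Dg k (s k)) f) := by
  unfold AS AW
  rw [Av_Av, biUnion_insert, union_comm]

lemma ep_insert (e : ι → ℕ → D) (W : Finset ι) (s : ι → ℕ) (k : ι) (hk : k ∉ W) :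
    ep e (insert k W) s = rd (e k (s k)) * ep e W s := by
  unfold ep
  rw [prod_insert hk]

lemma TW.AS_ep_zero (T : TW D ι) (V : Finset ι) (hV : V.Nonempty) (s : ι → ℕ)
    (hs : T.good V s) : AS T.Dg V s (ep T.e V s) = 0 := by
  obtain ⟨k, hk⟩ := hV
  have h1 : V = insert k (V.erase k) := (insert_erase hk).symm
  rw [h1, AS_insert', ep_insert _ _ _ _ (notMem_erase _ _), mul_comm,
    (T.ind_ep (V.erase k) s (fun i hi => hs i (mem_of_mem_erase hi)) k (notMem_erase _ _)
      (s k)).Av_mul, Av_rd (T.mem k _ (hs k hk)), mul_zero, map_zero]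

/-- the right-hand side function -/
noncomputable def hV (T : TW D ι) (τ : Finset ι → (ι → ℕ) → (D → Bool) → ℝ) (V : Finset ι)
    (s : ι → ℕ) : (D → Bool) → ℝ :=
  ∑ W ∈ V.powerset.erase ∅, (-1 : ℝ) ^ (W.card + 1) • AS T.Dg W s (ep T.e W s * τ (V \ W) s)

structure Sol (T : TW D ι) (β : ℕ → (D → Bool) → ℝ) (C : ℝ) (n : ℕ)
    (τ : Finset ι → (ι → ℕ) → (D → Bool) → ℝ) : Prop where
  empty : ∀ s, τ ∅ s = fun x => 1 - β 0 x
  supp : ∀ V, V.card ≤ n → ∀ s, T.good V s → ∀ x, τ V s x ≠ 0 → β V.card x = 0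
  slice : ∀ V, V.card ≤ n → ∀ s, T.good V s → ∀ k ∈ V, Av (T.Dg k (s k)) (τ V s) =
    Av (T.Dg k (s k)) (rd (T.e k (s k)) * τ (V.erase k) s)
  loc : ∀ V s s', (∀ i ∈ V, s i = s' i) → τ V s = τ V s'
  bound : ∀ V, V.Nonempty → V.card ≤ n → ∀ s, T.good V s → ∀ U, V ⊆ U → ∀ x,
    AS T.Dg U s (fun y => τ V s y ^ 2) x ≤ C * AS T.Dg U s (β 0) x
  sum : ∀ V, V.Nonempty → V.card ≤ n → ∀ s0,
    SB T.J V s0 (fun s => mean (fun x => τ V s x ^ 2)) ≤ C * mean (β 0)

lemma hV_NN (T : TW D ι) (τ : Finset ι → (ι → ℕ) → (D → Bool) → ℝ) (V : Finset ι)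
    (s : ι → ℕ) : NN (fun i => T.Dg i (s i)) V (hV T τ V s) = 0 := by
  unfold hV
  rw [map_sum]
  apply sum_eq_zero
  intro W hW
  rw [mem_erase, mem_powerset] at hW
  rw [map_smul]
  unfold AS
  rw [NN_AW_zero _ V W hW.2 (nonempty_iff_ne_empty.2 hW.1), smul_zero]

lemma hV_congr (T : TW D ι) (τ : Finset ι → (ι → ℕ) → (D → Bool) → ℝ)
    (hloc : ∀ V s s', (∀ i ∈ V, s i = s' i) → τ V s = τ V s') (V : Finset ι)
    (s s' : ι → ℕ) (h : ∀ i ∈ V, s i = s' i) : hV T τ V s = hV T τ V s' := by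
  unfold hV
  apply sum_congr rfl
  intro W hW
  rw [mem_erase, mem_powerset] at hW
  rw [AS_congr T.Dg W s s' (fun i hi => h i (hW.2 hi)),
    ep_congr T.e W s s' (fun i hi => h i (hW.2 hi)),
    hloc (V \ W) s s' (fun i hi => h i (mem_sdiff.1 hi).1)]

lemma Av_AS (Dg : ι → ℕ → Finset D) (W : Finset ι) (s : ι → ℕ) (k : ι)
    (f : (D → Bool) → ℝ) : Av (Dg k (s k)) (AS Dg W s f) = AS Dg W s (Av (Dg k (s k)) f) := by
  unfold AS AW
  rw [Av_Av, Av_Av, union_comm]

lemma hV_slice (T : TW D ι) (τ : Finset ι → (ι → ℕ) → (D → Bool) → ℝ) (n : ℕ)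
    (hsl : ∀ V, V.card ≤ n → ∀ s, T.good V s → ∀ k ∈ V, Av (T.Dg k (s k)) (τ V s) =
    Av (T.Dg k (s k)) (rd (T.e k (s k)) * τ (V.erase k) s)) (V : Finset ι) (hV' : V.card ≤ n + 1)
    (s : ι → ℕ) (hs : T.good V s) (k : ι) (hk : k ∈ V) :
    Av (T.Dg k (s k)) (hV T τ V s) =
      Av (T.Dg k (s k)) (rd (T.e k (s k)) * τ (V.erase k) s) := by
  -- split
  let F : Finset ι → (D → Bool) → ℝ := fun W =>
    (-1 : ℝ) ^ (W.card + 1) • AS T.Dg W s (ep T.e W s * τ (V \ W) s)
  have hVi : V = insert k (V.erase k) := (insert_erase hk).symm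
  have hsplit : hV T τ V s = ∑ W ∈ (V.erase k).powerset.erase ∅, F W +
      ∑ W ∈ (V.erase k).powerset, F (insert k W) := by
    have h1 : F ∅ + ∑ W ∈ V.powerset.erase ∅, F W = ∑ W ∈ V.powerset, F W :=
      add_sum_erase _ _ (empty_mem_powerset V)
    have h2 : F ∅ + ∑ W ∈ (V.erase k).powerset.erase ∅, F W = ∑ W ∈ (V.erase k).powerset, F W :=
      add_sum_erase _ _ (empty_mem_powerset _)
    have h3 : ∑ W ∈ V.powerset, F W = ∑ W ∈ (V.erase k).powerset, F W +
        ∑ W ∈ (V.erase k).powerset, F (insert k W) := by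
      conv_lhs => rw [hVi]
      exact sum_powerset_insert (notMem_erase _ _) F
    have h4 : hV T τ V s = ∑ W ∈ V.powerset.erase ∅, F W := rfl
    rw [h4]
    have h5 : F ∅ + ∑ W ∈ V.powerset.erase ∅, F W = F ∅ +
      (∑ W ∈ (V.erase k).powerset.erase ∅, F W + ∑ W ∈ (V.erase k).powerset, F (insert k W)) := by
      rw [h1, h3, ← h2, add_assoc]
    exact add_left_cancel h5
  rw [hsplit, ← add_sum_erase _ _ (empty_mem_powerset (V.erase k)), map_add, map_add, map_sum,
    map_sum]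
  have hF0 : F (insert k ∅) = AS T.Dg {k} s (rd (T.e k (s k)) * τ (V.erase k) s) := by
    simp only [F]
    have : insert k (∅ : Finset ι) = {k} := rfl
    rw [this, card_singleton, sdiff_singleton_eq_erase]
    simp [ep]
  have h1 : Av (T.Dg k (s k)) (F (insert k ∅)) =
      Av (T.Dg k (s k)) (rd (T.e k (s k)) * τ (V.erase k) s) := by
    rw [hF0]
    unfold AS
    rw [AW_singleton, Av_Av, union_self]
  rw [h1]
  have h2 : ∑ W ∈ (V.erase k).powerset.erase ∅, Av (T.Dg k (s k)) (F W) +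
      ∑ W ∈ (V.erase k).powerset.erase ∅, Av (T.Dg k (s k)) (F (insert k W)) = 0 := by
    rw [← sum_add_distrib]
    apply sum_eq_zero
    intro W hW
    rw [mem_erase, mem_powerset] at hW
    have hkW : k ∉ W := fun h => notMem_erase k V (hW.2 h)
    have hWV : W ⊆ V := hW.2.trans (erase_subset _ _)
    have hWne : 0 < W.card := card_pos.2 (nonempty_iff_ne_empty.2 hW.1)
    have hkVW : k ∈ V \ W := mem_sdiff.2 ⟨hk, hkW⟩
    have hcard : (V \ W).card ≤ n := by
      have := card_sdiff_add_card_eq_card hWV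
      omega
    have hsW : T.good W s := hs.mono hWV
    have e1 : Av (T.Dg k (s k)) (F W) = (-1 : ℝ) ^ (W.card + 1) •
        AS T.Dg (insert k W) s (ep T.e (insert k W) s * τ (V \ insert k W) s) := by
      simp only [F]
      rw [map_smul]
      congr 1
      rw [AS_insert', Av_AS]
      congr 1
      rw [(T.ind_ep W s hsW k hkW (s k)).Av_mul,
        hsl (V \ W) hcard s (hs.mono sdiff_subset) k hkVW,
        ← (T.ind_ep W s hsW k hkW (s k)).Av_mul, ep_insert _ _ _ _ hkW]
      congr 1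
      have : (V \ W).erase k = V \ insert k W := by
        ext i
        simp only [mem_erase, mem_sdiff, mem_insert]
        tauto
      rw [this]
      ring
    have e2 : Av (T.Dg k (s k)) (F (insert k W)) = (-1 : ℝ) ^ (W.card + 1 + 1) •
        AS T.Dg (insert k W) s (ep T.e (insert k W) s * τ (V \ insert k W) s) := by
      simp only [F]
      rw [map_smul, card_insert_of_notMem hkW]
      congr 1
      rw [AS_insert, Av_Av, union_self]
    rw [e1, e2, pow_succ _ (W.card + 1)]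
    simp
  rw [add_left_comm, h2, add_zero]

/-- the pointwise bound of `h_V` -/
lemma hV_bound (T : TW D ι) (τ : Finset ι → (ι → ℕ) → (D → Bool) → ℝ) (n : ℕ)
    (β : ℕ → (D → Bool) → ℝ) (hβ : ∀ x, β 0 x = 0 ∨ β 0 x = 1) (C : ℝ) (hC : 0 ≤ C)
    (hsol : Sol T β C n τ) (V : Finset ι) (hV' : V.card ≤ n + 1)
    (s : ι → ℕ) (hs : T.good V s) (U : Finset ι) (hU : V ⊆ U) (x) :
    AS T.Dg U s (fun y => hV T τ V s y ^ 2) x ≤
      4 ^ V.card * ((1 + C) * AS T.Dg U s (β 0) x) := by
  have hβ0 : ∀ x, 0 ≤ β 0 x := fun x => by rcases hβ x with h | h <;> simp [h]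
  have hb : 0 ≤ AS T.Dg U s (β 0) x := AW_nonneg _ _ hβ0 _
  unfold hV
  simp only [Finset.sum_apply]
  refine (AW_sum_sq_le _ U _ (fun W => (-1 : ℝ) ^ (W.card + 1) •
    AS T.Dg W s (ep T.e W s * τ (V \ W) s)) ((1 + C) * AS T.Dg U s (β 0) x) x ?_).trans ?_
  · intro W hW
    rw [mem_erase, mem_powerset] at hW
    have hWne := nonempty_iff_ne_empty.2 hW.1
    simp only [smul_sq]
    by_cases hVW : (V \ W).Nonempty
    · have hcard : (V \ W).card ≤ n := by
        have := card_sdiff_add_card_eq_card hW.2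
        have := card_pos.2 hWne
        omega
      have h1 := hsol.bound (V \ W) hVW hcard s (hs.mono sdiff_subset) U
        (sdiff_subset.trans hU) x
      have h2 : AW (fun i => T.Dg i (s i)) U
          (fun y => AS T.Dg W s (ep T.e W s * τ (V \ W) s) y ^ 2) x ≤
          AW (fun i => T.Dg i (s i)) U (AS T.Dg W s (fun y => τ (V \ W) s y ^ 2)) x := by
        apply AW_mono
        intro y
        refine (AW_sq_le _ W _ y).trans (le_of_eq ?_)
        have : (fun y => (ep T.e W s * τ (V \ W) s) y ^ 2) = fun y => τ (V \ W) s y ^ 2 := by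
          funext z
          rw [Pi.mul_apply, mul_pow, ep_sq, one_mul]
        rw [this]
        rfl
      refine h2.trans ?_
      unfold AS at h1 ⊢
      rw [AW_AW, union_eq_left.2 (hW.2.trans hU)]
      refine h1.trans ?_
      have : 0 ≤ AW (fun i => T.Dg i (s i)) U (β 0) x := AW_nonneg _ _ hβ0 _
      nlinarith
    · have hVW' : V = W := by
        rw [not_nonempty_iff_eq_empty, sdiff_eq_empty_iff_subset] at hVW
        exact subset_antisymm hVW hW.2
      subst hVW'
      have h1 : AS T.Dg V s (ep T.e V s * τ (V \ V) s) = - AS T.Dg V s (ep T.e V s * β 0) := by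
        have e1 : ep T.e V s * τ (V \ V) s = ep T.e V s - ep T.e V s * β 0 := by
          rw [sdiff_self, bot_eq_empty, hsol.empty]
          funext y
          simp only [Pi.mul_apply, Pi.sub_apply]
          ring
        rw [e1, map_sub, T.AS_ep_zero V hWne s hs, zero_sub]
      rw [h1]
      have h2 : AW (fun i => T.Dg i (s i)) U
          (fun y => (- AS T.Dg V s (ep T.e V s * β 0)) y ^ 2) x ≤
          AW (fun i => T.Dg i (s i)) U (AS T.Dg V s (β 0)) x := by
        apply AW_mono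
        intro y
        rw [Pi.neg_apply, neg_sq]
        refine (AW_sq_le _ V _ y).trans (le_of_eq ?_)
        have : (fun y => (ep T.e V s * β 0) y ^ 2) = β 0 := by
          funext z
          rw [Pi.mul_apply, mul_pow, ep_sq, one_mul]
          rcases hβ z with h | h <;> simp [h]
        rw [this]
        rfl
      refine h2.trans ?_
      unfold AS
      rw [AW_AW, union_eq_left.2 hU]
      have : 0 ≤ AW (fun i => T.Dg i (s i)) U (β 0) x := AW_nonneg _ _ hβ0 _
      nlinarith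
  · have h1 := card_le_pow V
    have h2 : ((V.powerset.erase ∅).card : ℝ) ^ 2 ≤ (2 ^ V.card) ^ 2 :=
      pow_le_pow_left₀ (by positivity) h1 2
    have h3 : ((2 : ℝ) ^ V.card) ^ 2 = 4 ^ V.card := by
      rw [← pow_mul, mul_comm, pow_mul]; norm_num
    rw [h3] at h2
    exact mul_le_mul_of_nonneg_right h2 (by positivity)

lemma mean_AS (Dg : ι → ℕ → Finset D) (W : Finset ι) (s : ι → ℕ) (f : (D → Bool) → ℝ) :
    mean (AS Dg W s f) = mean f := mean_Av _ _

lemma SB_sum {α : Type*} (J : ι → Finset ℕ) (V : Finset ι) (s0 : ι → ℕ) (A : Finset α)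
    (g : α → (ι → ℕ) → ℝ) :
    SB J V s0 (fun s => ∑ a ∈ A, g a s) = ∑ a ∈ A, SB J V s0 (g a) := by
  unfold SB
  rw [sum_comm]

lemma SB_smul (J : ι → Finset ℕ) (V : Finset ι) (s0 : ι → ℕ) (c : ℝ) (g : (ι → ℕ) → ℝ) :
    SB J V s0 (fun s => c * g s) = c * SB J V s0 g := by
  unfold SB
  rw [mul_sum]

/-- the summed bound of `h_V` -/
lemma hV_sum (T : TW D ι) (τ : Finset ι → (ι → ℕ) → (D → Bool) → ℝ) (n : ℕ)
    (β : ℕ → (D → Bool) → ℝ) (hβ : ∀ x, β 0 x = 0 ∨ β 0 x = 1) (C : ℝ) (hC : 0 ≤ C)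
    (hsol : Sol T β C n τ) (V : Finset ι) (hV' : V.card ≤ n + 1) (s0 : ι → ℕ) :
    SB T.J V s0 (fun s => mean (fun y => hV T τ V s y ^ 2)) ≤
      4 ^ V.card * ((1 + C) * mean (β 0)) := by
  have hβ0 : ∀ x, 0 ≤ β 0 x := fun x => by rcases hβ x with h | h <;> simp [h]
  have hb : 0 ≤ mean (β 0) := mean_nonneg hβ0
  have hterm : ∀ W ∈ V.powerset.erase ∅, SB T.J V s0 (fun s => mean (fun y =>
      AS T.Dg W s (ep T.e W s * τ (V \ W) s) y ^ 2)) ≤ (1 + C) * mean (β 0) := by
    intro W hW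
    rw [mem_erase, mem_powerset] at hW
    have hWne := nonempty_iff_ne_empty.2 hW.1
    by_cases hVW : (V \ W).Nonempty
    · have hcard : (V \ W).card ≤ n := by
        have := card_sdiff_add_card_eq_card hW.2
        have := card_pos.2 hWne
        omega
      have h1 := hsol.sum (V \ W) hVW hcard s0
      have hd : V = (V \ W) ∪ W := (sdiff_union_of_subset hW.2).symm
      have h2 : SB T.J V s0 (fun s => mean (fun y =>
          AS T.Dg W s (ep T.e W s * τ (V \ W) s) y ^ 2)) =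
          SB T.J (V \ W) s0 (fun s => SB T.J W s (fun s => mean (fun y =>
          AS T.Dg W s (ep T.e W s * τ (V \ W) s) y ^ 2))) := by
        rw [← SB_union T.J _ _ sdiff_disjoint, ← hd]
      rw [h2]
      refine le_trans (SB_mono T.J (V \ W) s0
        (g' := fun s => mean (fun x => τ (V \ W) s x ^ 2)) ?_) (h1.trans ?_)
      · intro s _ _
        refine le_trans (le_of_eq ?_) (T.bessel W s (τ (V \ W) s))
        apply SB_congr
        intro s' _ hs'
        have : τ (V \ W) s' = τ (V \ W) s :=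
          hsol.loc _ _ _ (fun i hi => hs' i (mem_sdiff.1 hi).2)
        rw [this]
      · nlinarith
    · have hVW' : V = W := by
        rw [not_nonempty_iff_eq_empty, sdiff_eq_empty_iff_subset] at hVW
        exact subset_antisymm hVW hW.2
      subst hVW'
      have h3 := T.bessel V s0 (β 0)
      have h4 : mean (fun x => β 0 x ^ 2) = mean (β 0) := by
        congr 1
        funext z
        rcases hβ z with h | h <;> simp [h]
      rw [h4] at h3
      refine le_trans (le_of_eq ?_) (h3.trans (by nlinarith))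
      apply SB_congr
      intro s hs _
      congr 1
      funext y
      have h1 : AS T.Dg V s (ep T.e V s * τ (V \ V) s) = - AS T.Dg V s (ep T.e V s * β 0) := by
        have e1 : ep T.e V s * τ (V \ V) s = ep T.e V s - ep T.e V s * β 0 := by
          rw [sdiff_self, bot_eq_empty, hsol.empty]
          funext y
          simp only [Pi.mul_apply, Pi.sub_apply]
          ring
        rw [e1, map_sub, T.AS_ep_zero V hWne s hs, zero_sub]
      rw [h1, Pi.neg_apply, neg_sq]
  have h1 : ∀ s, mean (fun y => hV T τ V s y ^ 2) ≤ 2 ^ V.card *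
      ∑ W ∈ V.powerset.erase ∅, mean (fun y => AS T.Dg W s (ep T.e W s * τ (V \ W) s) y ^ 2) := by
    intro s
    have e1 : ∀ y, hV T τ V s y ^ 2 ≤ 2 ^ V.card * ∑ W ∈ V.powerset.erase ∅,
        AS T.Dg W s (ep T.e W s * τ (V \ W) s) y ^ 2 := by
      intro y
      unfold hV
      rw [Finset.sum_apply]
      refine sq_sum_le_card_mul_sum_sq.trans ?_
      simp only [smul_sq]
      have := card_le_pow V
      exact mul_le_mul_of_nonneg_right this (sum_nonneg fun _ _ => sq_nonneg _)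
    refine (mean_mono e1).trans (le_of_eq ?_)
    rw [mean_smul, mean_sum]
  refine (SB_mono T.J V s0 (fun s _ _ => h1 s)).trans ?_
  rw [SB_smul, SB_sum]
  have h2 : ∑ W ∈ V.powerset.erase ∅, SB T.J V s0 (fun s => mean (fun y =>
      AS T.Dg W s (ep T.e W s * τ (V \ W) s) y ^ 2)) ≤ 2 ^ V.card * ((1 + C) * mean (β 0)) := by
    refine (sum_le_sum hterm).trans ?_
    rw [sum_const, nsmul_eq_mul]
    exact mul_le_mul_of_nonneg_right (card_le_pow V) (by positivity)
  have h3 : (4 : ℝ) ^ V.card = 2 ^ V.card * 2 ^ V.card := by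
    rw [← mul_pow]; norm_num
  calc _ ≤ (2 : ℝ) ^ V.card * (2 ^ V.card * ((1 + C) * mean (β 0))) := by gcongr
    _ = _ := by rw [h3]; ring

end Pool.Agent.LBern26
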