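import Pool.Agent.LBern26.Construct

set_option linter.unusedSectionVars false

open Finset

namespace Pool.Agent.LBern26

variable {D : Type*} [Fintype D] [DecidableEq D] {ι : Type*} [Fintype ι] [DecidableEq ι]

noncomputable def cC : ℕ → ℝ
  | 0 => 1
  | n+1 => 10 * 4 ^ (n + 1) * (1 + cC n)

lemma cC_nonneg (n : ℕ) : 0 ≤ cC n := by
  induction n with
  | zero => simp [cC]
  | succ n ih => simp only [cC]; positivity

lemma cC_le (n : ℕ) : cC n ≤ cC (n + 1) := by
  have h1 := cC_nonneg n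
  have h2 : (1 : ℝ) ≤ 4 ^ (n + 1) := one_le_pow₀ (by norm_num)
  simp only [cC]
  nlinarith [mul_nonneg (sub_nonneg.2 h2) h1]

lemma exists_tau (T : TW D ι) (τ : Finset ι → (ι → ℕ) → (D → Bool) → ℝ) (n : ℕ)
    (β : ℕ → (D → Bool) → ℝ) (hβ : ∀ j x, β j x = 0 ∨ β j x = 1) (C : ℝ)
    (hsol : Sol T β C n τ) (κ : ℝ) (hκ0 : 0 < κ) (hκ : 8 * 32 ^ Fintype.card ι * κ ≤ 1)
    (hB : ∀ x, β n x = 0 → ∀ W s, T.good W s →
      AS T.Dg W s (β (n+1)) x ≤ κ ^ (Fintype.card ι + 1))
    (V : Finset ι) (s : ι → ℕ) (hVc : V.card = n + 1) (hs : T.good V s) :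
    ∃ t : (D → Bool) → ℝ, (∀ x, t x ≠ 0 → β (n+1) x = 0) ∧
      (∀ k ∈ V, Av (T.Dg k (s k)) t = Av (T.Dg k (s k)) (rd (T.e k (s k)) * τ (V.erase k) s)) ∧
      ∀ x, AS T.Dg V s (fun z => t z ^ 2) x ≤ 10 * AS T.Dg V s (fun z => hV T τ V s z ^ 2) x := by
  have hVN : V.card ≤ Fintype.card ι := card_le_univ V
  have h32 : (1 : ℝ) ≤ 32 ^ Fintype.card ι := one_le_pow₀ (by norm_num)
  have hκ1 : κ ≤ 1 := by nlinarith
  have hκV : 8 * 32 ^ V.card * κ ≤ 1 := by
    refine le_trans ?_ hκ
    gcongr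
    norm_num
  obtain ⟨t, h1, h2, h3⟩ := good_lambda (fun i => T.Dg i (s i)) V κ hκ0 hκV (β (n+1))
    (hβ (n+1)) (hV T τ V s) (hV_NN T τ V s) (by
      intro k hk x hx
      rw [hV_slice T τ n hsol.slice V hVc.le s hs k hk, Av_apply]
      have hz : ∀ z, (rd (T.e k (s k)) * τ (V.erase k) s) ((T.Dg k (s k)).piecewise z x) = 0 := by
        intro z
        rw [Pi.mul_apply]
        by_contra hcon
        have hne : τ (V.erase k) s ((T.Dg k (s k)).piecewise z x) ≠ 0 := right_ne_zero_of_mul hcon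
        have hc : (V.erase k).card = n := by
          rw [card_erase_of_mem hk]
          omega
        have h4 := hsol.supp (V.erase k) hc.le s (hs.mono (erase_subset _ _)) _ hne
        rw [hc] at h4
        have h5 := hx z
        have h6 : coreF (fun i => T.Dg i (s i)) V κ (β (n+1))
            ((T.Dg k (s k)).piecewise z x) = 1 := by
          rw [coreF_eq_one]
          intro W hW
          refine (hB _ h4 W s (hs.mono hW)).trans ?_
          apply pow_le_pow_of_le_one hκ0.le hκ1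
          have := card_le_univ W
          omega
        rw [h6] at h5
        exact one_ne_zero h5
      simp only [hz]
      exact mean_const 0)
  refine ⟨t, h1, ?_, h3⟩
  intro k hk
  rw [h2 k hk, hV_slice T τ n hsol.slice V hVc.le s hs k hk]

lemma sol_step (T : TW D ι) (τ : Finset ι → (ι → ℕ) → (D → Bool) → ℝ) (n : ℕ)
    (β : ℕ → (D → Bool) → ℝ) (hβ : ∀ j x, β j x = 0 ∨ β j x = 1)
    (hsol : Sol T β (cC n) n τ) (κ : ℝ) (hκ0 : 0 < κ) (hκ : 8 * 32 ^ Fintype.card ι * κ ≤ 1)
    (hB : ∀ x, β n x = 0 → ∀ W s, T.good W s →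
      AS T.Dg W s (β (n+1)) x ≤ κ ^ (Fintype.card ι + 1)) :
    ∃ τ', Sol T β (cC (n+1)) (n+1) τ' := by
  classical
  have hβ0 : ∀ x, 0 ≤ β 0 x := fun x => by rcases hβ 0 x with h | h <;> simp [h]
  have hex := exists_tau T τ n β hβ (cC n) hsol κ hκ0 hκ hB
  choose! f hf1 hf2 hf3 using hex
  let rep : Finset ι → (ι → ℕ) → (ι → ℕ) := fun V s i => if i ∈ V then s i else 0
  have hrep : ∀ V s, ∀ i ∈ V, rep V s i = s i := fun V s i hi => by simp [rep, hi]
  have hrepg : ∀ V s, T.good V s → T.good V (rep V s) := fun V s h i hi => by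
    rw [hrep V s i hi]; exact h i hi
  let τ' : Finset ι → (ι → ℕ) → (D → Bool) → ℝ := fun V s =>
    if V.card = n + 1 then f V (rep V s) else τ V s
  have hτ'n : ∀ V s, V.card ≤ n → τ' V s = τ V s := by
    intro V s h
    simp only [τ']
    rw [if_neg (by omega)]
  have hτ'1 : ∀ V s, V.card = n + 1 → τ' V s = f V (rep V s) := by
    intro V s h
    simp only [τ']
    rw [if_pos h]
  have hhV : ∀ V s, hV T τ V (rep V s) = hV T τ V s := fun V s =>
    hV_congr T τ hsol.loc V _ _ (hrep V s)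
  -- properties of the new layer
  have hn2 : ∀ V s, V.card = n + 1 → T.good V s → ∀ k ∈ V, Av (T.Dg k (s k)) (τ' V s) =
      Av (T.Dg k (s k)) (rd (T.e k (s k)) * τ' (V.erase k) s) := by
    intro V s hVc hs k hk
    have h := hf2 V (rep V s) hVc (hrepg V s hs) k hk
    rw [hrep V s k hk] at h
    rw [hτ'1 V s hVc, h, hτ'n (V.erase k) s (by rw [card_erase_of_mem hk]; omega)]
    congr 2
    exact hsol.loc _ _ _ (fun i hi => hrep V s i (mem_of_mem_erase hi))
  have hn3 : ∀ V s, V.card = n + 1 → T.good V s → ∀ x,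
      AS T.Dg V s (fun z => τ' V s z ^ 2) x ≤
        10 * AS T.Dg V s (fun z => hV T τ V s z ^ 2) x := by
    intro V s hVc hs x
    have h := hf3 V (rep V s) hVc (hrepg V s hs) x
    rw [AS_congr T.Dg V (rep V s) s (hrep V s), hhV] at h
    rw [hτ'1 V s hVc]
    exact h
  refine ⟨τ', ?_, ?_, ?_, ?_, ?_, ?_⟩
  · intro s
    rw [hτ'n ∅ s (by simp), hsol.empty]
  · intro V hVc s hs x hx
    rcases Nat.lt_or_ge V.card (n+1) with h | h
    · rw [hτ'n V s (by omega)] at hx
      exact hsol.supp V (by omega) s hs x hx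
    · have hc : V.card = n + 1 := le_antisymm hVc h
      rw [hτ'1 V s hc] at hx
      rw [hc]
      exact hf1 V (rep V s) hc (hrepg V s hs) x hx
  · intro V hVc s hs k hk
    rcases Nat.lt_or_ge V.card (n+1) with h | h
    · rw [hτ'n V s (by omega), hτ'n (V.erase k) s (by rw [card_erase_of_mem hk]; omega)]
      exact hsol.slice V (by omega) s hs k hk
    · exact hn2 V s (le_antisymm hVc h) hs k hk
  · intro V s s' h
    by_cases hc : V.card = n + 1
    · rw [hτ'1 V s hc, hτ'1 V s' hc]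
      congr 1
      funext i
      by_cases hi : i ∈ V
      · simp [rep, hi, h i hi]
      · simp [rep, hi]
    · simp only [τ']
      rw [if_neg hc, if_neg hc]
      exact hsol.loc V s s' h
  · intro V hVn hVc s hs U hU x
    have hb : 0 ≤ AS T.Dg U s (β 0) x := AW_nonneg _ _ hβ0 _
    rcases Nat.lt_or_ge V.card (n+1) with h | h
    · rw [hτ'n V s (by omega)]
      refine (hsol.bound V hVn (by omega) s hs U hU x).trans ?_
      exact mul_le_mul_of_nonneg_right (cC_le n) hb
    · have hc : V.card = n + 1 := le_antisymm hVc h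
      have h1 : AS T.Dg U s (fun y => τ' V s y ^ 2) x ≤
          10 * AS T.Dg U s (fun z => hV T τ V s z ^ 2) x := by
        have e1 : AS T.Dg U s (fun y => τ' V s y ^ 2) =
            AS T.Dg U s (AS T.Dg V s (fun y => τ' V s y ^ 2)) := by
          unfold AS
          rw [AW_AW, union_eq_left.2 hU]
        have e2 : AS T.Dg U s (fun z => hV T τ V s z ^ 2) =
            AS T.Dg U s (AS T.Dg V s (fun z => hV T τ V s z ^ 2)) := by
          unfold AS
          rw [AW_AW, union_eq_left.2 hU]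
        rw [e1, e2]
        refine (AW_mono _ U (hn3 V s hc hs) x).trans (le_of_eq ?_)
        exact mean_smul _ _
      have h2 := hV_bound T τ n β (hβ 0) (cC n) (cC_nonneg n) hsol V (by omega) s hs U hU x
      rw [hc] at h2
      simp only [cC]
      linarith
  · intro V hVn hVc s0
    have hb : 0 ≤ mean (β 0) := mean_nonneg hβ0
    rcases Nat.lt_or_ge V.card (n+1) with h | h
    · have h1 := hsol.sum V hVn (by omega) s0
      have h2 : ∀ s, τ' V s = τ V s := fun s => hτ'n V s (by omega)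
      simp only [h2]
      exact h1.trans (mul_le_mul_of_nonneg_right (cC_le n) hb)
    · have hc : V.card = n + 1 := le_antisymm hVc h
      have h1 : SB T.J V s0 (fun s => mean (fun x => τ' V s x ^ 2)) ≤
          SB T.J V s0 (fun s => 10 * mean (fun y => hV T τ V s y ^ 2)) := by
        apply SB_mono
        intro s hs _
        rw [← mean_AS T.Dg V s (fun x => τ' V s x ^ 2),
          ← mean_AS T.Dg V s (fun y => hV T τ V s y ^ 2), ← mean_smul]
        exact mean_mono (hn3 V s hc hs)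
      rw [SB_smul] at h1
      have h2 := hV_sum T τ n β (hβ 0) (cC n) (cC_nonneg n) hsol V (by omega) s0
      rw [hc] at h2
      simp only [cC]
      linarith

lemma exists_sol (T : TW D ι) (β : ℕ → (D → Bool) → ℝ) (hβ : ∀ j x, β j x = 0 ∨ β j x = 1)
    (κ : ℝ) (hκ0 : 0 < κ) (hκ : 8 * 32 ^ Fintype.card ι * κ ≤ 1)
    (hB : ∀ j < Fintype.card ι, ∀ x, β j x = 0 → ∀ W s, T.good W s →
      AS T.Dg W s (β (j+1)) x ≤ κ ^ (Fintype.card ι + 1)) (n : ℕ) (hn : n ≤ Fintype.card ι) :
    ∃ τ, Sol T β (cC n) n τ := by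
  induction n with
  | zero =>
    refine ⟨fun _ _ x => 1 - β 0 x, fun _ => rfl, ?_, ?_, ?_, ?_, ?_⟩
    · intro V hVc s _ x hx
      rw [Nat.le_zero.1 hVc]
      rcases hβ 0 x with h | h
      · exact h
      · rw [h] at hx
        simp at hx
    · intro V hVc s _ k hk
      rw [card_eq_zero.1 (Nat.le_zero.1 hVc)] at hk
      simp at hk
    · intro _ _ _ _
      rfl
    · intro V hVn hVc
      rw [card_eq_zero.1 (Nat.le_zero.1 hVc)] at hVn
      simp at hVn
    · intro V hVn hVc
      rw [card_eq_zero.1 (Nat.le_zero.1 hVc)] at hVn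
      simp at hVn
  | succ n ih =>
    obtain ⟨τ, hτ⟩ := ih (by omega)
    exact sol_step T τ n β hβ hτ κ hκ0 hκ (hB n (by omega))

end Pool.Agent.LBern26
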