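import Pool.Agent.LBern26.GL

set_option linter.unusedSectionVars false

open Finset

namespace Pool.Agent.LBern26

variable {D : Type*} [Fintype D] [DecidableEq D] {ι : Type*} [DecidableEq ι]
variable (Dk : ι → Finset D)

open Classical in
/-- indicator of the core set -/
noncomputable def coreF (V : Finset ι) (κ : ℝ) (β : (D → Bool) → ℝ) (x : D → Bool) : ℝ :=
  if ∀ W ⊆ V, AW Dk W β x ≤ κ ^ (W.card + 1) then 1 else 0

lemma coreF_01 (V : Finset ι) (κ : ℝ) (β : (D → Bool) → ℝ) (x : D → Bool) :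
    coreF Dk V κ β x = 0 ∨ coreF Dk V κ β x = 1 := by
  unfold coreF
  split_ifs <;> simp

lemma coreF_eq_one (V : Finset ι) (κ : ℝ) (β : (D → Bool) → ℝ) (x : D → Bool) :
    coreF Dk V κ β x = 1 ↔ ∀ W ⊆ V, AW Dk W β x ≤ κ ^ (W.card + 1) := by
  unfold coreF
  split_ifs with h
  · simpa using h
  · simpa using h

lemma coreF_beta (V : Finset ι) (κ : ℝ) (hκ1 : κ < 1) (β : (D → Bool) → ℝ)
    (hβ : ∀ x, β x = 0 ∨ β x = 1) (x : D → Bool) (h : coreF Dk V κ β x ≠ 0) : β x = 0 := by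
  have h1 := (coreF_eq_one Dk V κ β x).1 ((coreF_01 Dk V κ β x).resolve_left h) ∅ (empty_subset _)
  rw [AW_empty] at h1
  rcases hβ x with h2 | h2
  · exact h2
  · rw [h2] at h1
    simp at h1
    linarith

lemma coreF_close (V : Finset ι) (κ : ℝ) (hκ0 : 0 < κ) (hκ1 : κ ≤ 1) (β : (D → Bool) → ℝ)
    (hβ : ∀ x, β x = 0 ∨ β x = 1) (x : D → Bool) (h : coreF Dk V κ β x = 1)
    (W : Finset ι) (hW : W ⊆ V) : 1 - 2 ^ V.card * κ ≤ AW Dk W (coreF Dk V κ β) x := by
  classical
  have hx := (coreF_eq_one Dk V κ β x).1 h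
  have hβ0 : ∀ x, 0 ≤ β x := fun x => by rcases hβ x with h | h <;> simp [h]
  let F : Finset ι → (D → Bool) → ℝ := fun W' y => if κ ^ (W'.card + 1) < AW Dk W' β y then 1 else 0
  have h1 : ∀ y, 1 - ∑ W' ∈ V.powerset, F W' y ≤ coreF Dk V κ β y := by
    intro y
    by_cases hy : ∀ W' ⊆ V, AW Dk W' β y ≤ κ ^ (W'.card + 1)
    · rw [(coreF_eq_one Dk V κ β y).2 hy]
      have : 0 ≤ ∑ W' ∈ V.powerset, F W' y := sum_nonneg fun W' _ => by
        simp only [F]
        split_ifs <;> norm_num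
      linarith
    · push Not at hy
      obtain ⟨W', hW', hy'⟩ := hy
      have h2 : F W' y ≤ ∑ W' ∈ V.powerset, F W' y := by
        apply single_le_sum (f := fun W' => F W' y) (fun W' _ => by
          simp only [F]
          split_ifs <;> norm_num) (mem_powerset.2 hW')
      have h3 : F W' y = 1 := by simp only [F]; rw [if_pos hy']
      have h4 : 0 ≤ coreF Dk V κ β y := by
        rcases coreF_01 Dk V κ β y with h | h <;> simp [h]
      linarith
  have h2 := AW_mono Dk W h1 x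
  have h3 : AW Dk W (fun y => 1 - ∑ W' ∈ V.powerset, F W' y) x =
      1 - ∑ W' ∈ V.powerset, AW Dk W (F W') x := by
    have e : AW Dk W (fun y => 1 - ∑ W' ∈ V.powerset, F W' y) x =
      mean (fun z => 1 - ∑ W' ∈ V.powerset, F W' ((W.biUnion Dk).piecewise z x)) := rfl
    rw [e]
    have e2 : (fun z => 1 - ∑ W' ∈ V.powerset, F W' ((W.biUnion Dk).piecewise z x)) =
      (fun z => 1 + (-1) * ∑ W' ∈ V.powerset, F W' ((W.biUnion Dk).piecewise z x)) := by
      funext z; ring
    rw [e2, mean_add, mean_const, mean_smul, mean_sum]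
    simp only [AW, Av_apply]
    ring
  rw [h3] at h2
  have h4 : ∀ W' ∈ V.powerset, AW Dk W (F W') x ≤ κ := by
    intro W' hW'
    rw [mem_powerset] at hW'
    by_cases hsub : W ⊆ W'
    · -- constant on the slice
      have hi : Ind (W.biUnion Dk) (F W') := by
        intro z y
        have : AW Dk W' β ((W.biUnion Dk).piecewise z y) = AW Dk W' β y :=
          (AW_ind Dk W' β).mono (biUnion_subset_biUnion_of_subset_left _ hsub) z y
        simp only [F, this]
      have h5 : AW Dk W (F W') = F W' := hi.Av_eq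
      rw [h5]
      have h6 : F W' x = 0 := by
        simp only [F]
        rw [if_neg (not_lt.2 (hx W' hW'))]
      rw [h6]
      exact hκ0.le
    · have h5 : ∀ y, F W' y ≤ (κ ^ (W'.card + 1))⁻¹ * AW Dk W' β y := by
        intro y
        simp only [F]
        have hp : 0 < κ ^ (W'.card + 1) := by positivity
        split_ifs with h
        · rw [inv_mul_eq_div, le_div_iff₀ hp, one_mul]
          exact h.le
        · have := AW_nonneg Dk W' hβ0 y
          positivity
      have h6 := AW_mono Dk W h5 x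
      have h7 : AW Dk W (fun y => (κ ^ (W'.card + 1))⁻¹ * AW Dk W' β y) x =
          (κ ^ (W'.card + 1))⁻¹ * AW Dk (W ∪ W') β x := by
        rw [← AW_AW]
        exact mean_smul _ _
      rw [h7] at h6
      have h8 := hx (W ∪ W') (union_subset hW hW')
      have h9 : W'.card + 1 ≤ (W ∪ W').card := by
        apply card_lt_card
        refine ⟨subset_union_right, ?_⟩
        intro hcon
        exact hsub (subset_union_left.trans hcon)
      have hp : 0 < κ ^ (W'.card + 1) := by positivity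
      calc AW Dk W (F W') x ≤ (κ ^ (W'.card + 1))⁻¹ * AW Dk (W ∪ W') β x := h6
        _ ≤ (κ ^ (W'.card + 1))⁻¹ * κ ^ ((W ∪ W').card + 1) := by gcongr
        _ ≤ (κ ^ (W'.card + 1))⁻¹ * κ ^ (W'.card + 1 + 1) := by
          gcongr (κ ^ (W'.card + 1))⁻¹ * ?_
          exact pow_le_pow_of_le_one hκ0.le hκ1 (by omega)
        _ = κ := by
          rw [pow_succ κ (W'.card + 1), ← mul_assoc, inv_mul_cancel₀ hp.ne', one_mul]
  have h5 : ∑ W' ∈ V.powerset, AW Dk W (F W') x ≤ 2 ^ V.card * κ := by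
    calc _ ≤ ∑ W' ∈ V.powerset, κ := sum_le_sum h4
      _ = 2 ^ V.card * κ := by
        rw [sum_const, card_powerset, nsmul_eq_mul]
        push_cast
        ring
  linarith

/-- the good-lambda lemma -/
lemma good_lambda (V : Finset ι) (κ : ℝ) (hκ0 : 0 < κ) (hκ1 : 8 * 32 ^ V.card * κ ≤ 1)
    (β : (D → Bool) → ℝ) (hβ : ∀ x, β x = 0 ∨ β x = 1)
    (h : (D → Bool) → ℝ) (hN : NN Dk V h = 0)
    (hs : ∀ k ∈ V, ∀ x, (∀ z, coreF Dk V κ β ((Dk k).piecewise z x) = 0) → Av (Dk k) h x = 0) :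
    ∃ τ : (D → Bool) → ℝ, (∀ x, τ x ≠ 0 → β x = 0) ∧
      (∀ k ∈ V, Av (Dk k) τ = Av (Dk k) h) ∧
      ∀ x, AW Dk V (fun z => τ z ^ 2) x ≤ 10 * AW Dk V (fun z => h z ^ 2) x := by
  have h32 : (1 : ℝ) ≤ 32 ^ V.card := one_le_pow₀ (by norm_num)
  have hκ2 : κ < 1 := by nlinarith
  have hη : 8 * 16 ^ V.card * (2 ^ V.card * κ) ≤ 1 := by
    calc 8 * 16 ^ V.card * (2 ^ V.card * κ) = 8 * (16 ^ V.card * 2 ^ V.card) * κ := by ring
      _ = 8 * 32 ^ V.card * κ := by rw [← mul_pow]; norm_num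
      _ ≤ 1 := hκ1
  obtain ⟨τ, h1, h2, h3⟩ := GL_core Dk (coreF Dk V κ β) (coreF_01 Dk V κ β) V (2 ^ V.card * κ)
    (by positivity) hη (fun x hx W hW => coreF_close Dk V κ hκ0 hκ2.le β hβ x hx W hW) h hN
    (fun k hk x hx => hs k hk x (Av_eq_zero_of_nonneg (fun x => by
      rcases coreF_01 Dk V κ β x with h | h <;> simp [h]) hx))
  refine ⟨τ, ?_, h2, h3⟩
  intro x hx
  apply coreF_beta Dk V κ hκ2 β hβ x
  intro hcon
  exact hx (h1 x hcon)

end Pool.Agent.LBern26
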