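import Pool.Agent.LBern26.Base

set_option linter.unusedSectionVars false

open Finset

namespace Pool.Agent.LBern26

variable {D : Type*} [Fintype D] [DecidableEq D] {ι : Type*} [DecidableEq ι]

/-- mean over the union of the digit sets `Dk i`, `i ∈ W` -/
noncomputable def AW (Dk : ι → Finset D) (W : Finset ι) :
    ((D → Bool) → ℝ) →ₗ[ℝ] ((D → Bool) → ℝ) := Av (W.biUnion Dk)

variable (Dk : ι → Finset D)

lemma AW_AW (W W' : Finset ι) (f : (D → Bool) → ℝ) :
    AW Dk W (AW Dk W' f) = AW Dk (W ∪ W') f := by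
  unfold AW
  rw [Av_Av, union_biUnion]

lemma AW_empty (f : (D → Bool) → ℝ) : AW Dk ∅ f = f := by
  unfold AW
  rw [biUnion_empty, Av_empty]

lemma AW_singleton (k : ι) (f : (D → Bool) → ℝ) : AW Dk {k} f = Av (Dk k) f := by
  unfold AW
  rw [singleton_biUnion]

lemma AW_sq_le (W : Finset ι) (f : (D → Bool) → ℝ) (x) :
    (AW Dk W f x) ^ 2 ≤ AW Dk W (fun y => f y ^ 2) x := Av_sq_le _ _ _

lemma AW_mono (W : Finset ι) {f g : (D → Bool) → ℝ} (h : ∀ x, f x ≤ g x) (x) :
    AW Dk W f x ≤ AW Dk W g x := Av_mono _ h _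

lemma AW_nonneg (W : Finset ι) {f : (D → Bool) → ℝ} (h : ∀ x, 0 ≤ f x) (x) :
    0 ≤ AW Dk W f x := Av_nonneg _ h _

lemma AW_const (W : Finset ι) (c : ℝ) : AW Dk W (fun _ => c) = fun _ => c := by
  funext x
  exact mean_const _

lemma AW_ind (W : Finset ι) (f : (D → Bool) → ℝ) : Ind (W.biUnion Dk) (AW Dk W f) :=
  ind_Av (subset_refl _) _

lemma AW_sum_sq_le {α : Type*} (V : Finset ι) (s : Finset α) (F : α → (D → Bool) → ℝ)
    (c : ℝ) (x : D → Bool) (hc : ∀ a ∈ s, AW Dk V (fun y => F a y ^ 2) x ≤ c) :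
    AW Dk V (fun y => (∑ a ∈ s, F a y) ^ 2) x ≤ (s.card : ℝ) ^ 2 * c := by
  have h1 : AW Dk V (fun y => (∑ a ∈ s, F a y) ^ 2) x ≤
      AW Dk V (fun y => (s.card : ℝ) * ∑ a ∈ s, F a y ^ 2) x := by
    apply AW_mono
    intro y
    exact sq_sum_le_card_mul_sum_sq
  have h2 : AW Dk V (fun y => (s.card : ℝ) * ∑ a ∈ s, F a y ^ 2) x =
      (s.card : ℝ) * ∑ a ∈ s, AW Dk V (fun y => F a y ^ 2) x := by
    unfold AW
    simp only [Av_apply]
    rw [mean_smul, mean_sum]
  rw [h2] at h1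
  refine h1.trans ?_
  have h3 : ∑ a ∈ s, AW Dk V (fun y => F a y ^ 2) x ≤ s.card * c := by
    rw [← nsmul_eq_mul, ← sum_const]
    exact sum_le_sum hc
  calc _ ≤ (s.card : ℝ) * (s.card * c) := by gcongr
    _ = _ := by ring

/-- `N = ∏_{k ∈ V} (1 - A_k)` -/
noncomputable def NN (V : Finset ι) : ((D → Bool) → ℝ) →ₗ[ℝ] ((D → Bool) → ℝ) :=
  ∑ W ∈ V.powerset, (-1 : ℝ) ^ W.card • AW Dk W

lemma NN_apply (V : Finset ι) (f : (D → Bool) → ℝ) :
    NN Dk V f = ∑ W ∈ V.powerset, (-1 : ℝ) ^ W.card • AW Dk W f := by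
  unfold NN
  simp [LinearMap.sum_apply]

/-- `f - N f = ∑_{W ≠ ∅} (-1)^{|W|+1} A_W f` -/
lemma sub_NN (V : Finset ι) (f : (D → Bool) → ℝ) :
    f - NN Dk V f = ∑ W ∈ V.powerset.erase ∅, (-1 : ℝ) ^ (W.card + 1) • AW Dk W f := by
  rw [NN_apply, ← add_sum_erase _ _ (empty_mem_powerset V)]
  simp only [card_empty, pow_zero, one_smul, AW_empty, sub_add_eq_sub_sub, sub_self, zero_sub,
    pow_succ, mul_neg, mul_one, neg_smul, sum_neg_distrib]

lemma AW_NN_zero (V : Finset ι) (k : ι) (hk : k ∈ V) (f : (D → Bool) → ℝ) :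
    Av (Dk k) (NN Dk V f) = 0 := by
  rw [← AW_singleton]
  have hV : V = insert k (V.erase k) := (insert_erase hk).symm
  rw [hV, NN_apply, sum_powerset_insert (notMem_erase _ _), map_add, map_sum, map_sum]
  rw [← sum_add_distrib]
  apply sum_eq_zero
  intro W hW
  have hkW : k ∉ W := fun h => (notMem_erase k V) (mem_powerset.1 hW h)
  rw [map_smul, map_smul, AW_AW, AW_AW, card_insert_of_notMem hkW, pow_succ]
  have h1 : ({k} : Finset ι) ∪ W = insert k W := rfl
  have h2 : ({k} : Finset ι) ∪ insert k W = insert k W := by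
    ext i
    simp
  rw [h1, h2]
  simp

lemma AW_sub_NN (V : Finset ι) (k : ι) (hk : k ∈ V) (f : (D → Bool) → ℝ) :
    Av (Dk k) (f - NN Dk V f) = Av (Dk k) f := by
  rw [map_sub, AW_NN_zero Dk V k hk, sub_zero]

lemma NN_AW_zero (V W : Finset ι) (hW : W ⊆ V) (hne : W.Nonempty) (f : (D → Bool) → ℝ) :
    NN Dk V (AW Dk W f) = 0 := by
  obtain ⟨k, hk⟩ := hne
  have hkV := hW hk
  have hV : V = insert k (V.erase k) := (insert_erase hkV).symm
  rw [hV, NN_apply, sum_powerset_insert (notMem_erase _ _), ← sum_add_distrib]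
  apply sum_eq_zero
  intro U hU
  have hkU : k ∉ U := fun h => (notMem_erase k V) (mem_powerset.1 hU h)
  rw [AW_AW, AW_AW, card_insert_of_notMem hkU, pow_succ]
  have h1 : insert k U ∪ W = U ∪ W := by
    ext i
    simp only [mem_union, mem_insert]
    constructor
    · rintro ((h | h) | h)
      · right
        rw [h]
        exact hk
      · left; exact h
      · right; exact h
    · rintro (h | h)
      · left; right; exact h
      · right; exact h
  rw [h1]
  simp

lemma NN_sub_NN (V : Finset ι) (f : (D → Bool) → ℝ) : NN Dk V (f - NN Dk V f) = 0 := by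
  rw [sub_NN, map_sum]
  apply sum_eq_zero
  intro W hW
  rw [mem_erase, mem_powerset] at hW
  rw [map_smul, NN_AW_zero Dk V W hW.2 (nonempty_iff_ne_empty.2 hW.1), smul_zero]

lemma card_le_pow (V : Finset ι) : ((V.powerset.erase ∅).card : ℝ) ≤ 2 ^ V.card := by
  have h1 : (V.powerset.erase ∅).card ≤ V.powerset.card := card_le_card (erase_subset _ _)
  rw [card_powerset] at h1
  exact_mod_cast h1

lemma smul_sq (n : ℕ) (f : (D → Bool) → ℝ) (y) : (((-1 : ℝ) ^ n • f) y) ^ 2 = f y ^ 2 := by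
  rw [Pi.smul_apply, smul_eq_mul, mul_pow, ← pow_mul, mul_comm n 2, pow_mul]
  simp

lemma R0_bound (V : Finset ι) (g : (D → Bool) → ℝ) (x) :
    AW Dk V (fun y => (g - NN Dk V g) y ^ 2) x ≤ 4 ^ V.card * AW Dk V (fun y => g y ^ 2) x := by
  rw [sub_NN]
  simp only [Finset.sum_apply]
  have hnn : 0 ≤ AW Dk V (fun y => g y ^ 2) x := AW_nonneg _ _ (fun _ => sq_nonneg _) _
  refine (AW_sum_sq_le Dk V _ (fun W => (-1 : ℝ) ^ (W.card + 1) • AW Dk W g)
    (AW Dk V (fun y => g y ^ 2) x) x ?_).trans ?_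
  · intro W hW
    rw [mem_erase, mem_powerset] at hW
    simp only [smul_sq]
    refine (AW_mono Dk V (fun y => AW_sq_le Dk W g y) x).trans ?_
    rw [AW_AW, union_eq_left.2 hW.2]
  · have h1 := card_le_pow V
    have h2 : ((V.powerset.erase ∅).card : ℝ) ^ 2 ≤ (2 ^ V.card) ^ 2 :=
      pow_le_pow_left₀ (by positivity) h1 2
    have h3 : ((2 : ℝ) ^ V.card) ^ 2 = 4 ^ V.card := by
      rw [← pow_mul, mul_comm, pow_mul]; norm_num
    rw [h3] at h2
    gcongr

/-- the core-localised operator -/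
noncomputable def TT (core : (D → Bool) → ℝ) (V : Finset ι) :
    ((D → Bool) → ℝ) →ₗ[ℝ] ((D → Bool) → ℝ) :=
  ∑ W ∈ V.powerset.erase ∅, (-1 : ℝ) ^ (W.card + 1) •
    (LinearMap.mulRight ℝ (fun x => core x / AW Dk W core x) ∘ₗ AW Dk W)

lemma TT_apply (core : (D → Bool) → ℝ) (V : Finset ι) (f : (D → Bool) → ℝ) :
    TT Dk core V f = ∑ W ∈ V.powerset.erase ∅, (-1 : ℝ) ^ (W.card + 1) •
      (AW Dk W f * fun x => core x / AW Dk W core x) := by
  unfold TT
  simp [LinearMap.sum_apply]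

lemma TT_supp (core : (D → Bool) → ℝ) (V : Finset ι) (f : (D → Bool) → ℝ) (x)
    (hx : core x = 0) : TT Dk core V f x = 0 := by
  rw [TT_apply, Finset.sum_apply]
  apply sum_eq_zero
  intro W _
  simp [hx]

lemma AW_core_zero_or (core : (D → Bool) → ℝ) (hc01 : ∀ x, core x = 0 ∨ core x = 1)
    (V : Finset ι) (η : ℝ) (hc : ∀ x, core x = 1 → ∀ W ⊆ V, 1 - η ≤ AW Dk W core x)
    (W : Finset ι) (hW : W ⊆ V) (x) : AW Dk W core x = 0 ∨ 1 - η ≤ AW Dk W core x := by
  by_cases h : AW Dk W core x = 0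
  · exact Or.inl h
  · right
    have h1 : ∃ z, core ((W.biUnion Dk).piecewise z x) ≠ 0 := by
      by_contra hcon
      push Not at hcon
      apply h
      unfold AW
      rw [Av_apply]
      simp only [hcon]
      exact mean_const 0
    obtain ⟨z, hz⟩ := h1
    have h2 := hc _ ((hc01 _).resolve_left hz) W hW
    unfold AW at h2 ⊢
    rwa [Av_congr_slice] at h2

lemma AW_zero_of_core_zero (core : (D → Bool) → ℝ) (hc01 : ∀ x, core x = 0 ∨ core x = 1)
    (V : Finset ι) (y : (D → Bool) → ℝ)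
    (hs : ∀ k ∈ V, ∀ x, Av (Dk k) core x = 0 → Av (Dk k) y x = 0)
    (W : Finset ι) (hW : W ⊆ V) (hne : W.Nonempty) (x) (hx : AW Dk W core x = 0) :
    AW Dk W y x = 0 := by
  obtain ⟨k, hk⟩ := hne
  have hU : W ∪ {k} = W := union_eq_left.2 (singleton_subset_iff.2 hk)
  have h1 : AW Dk W core = AW Dk W (Av (Dk k) core) := by
    rw [← AW_singleton, AW_AW, hU]
  have h2 : AW Dk W y = AW Dk W (Av (Dk k) y) := by
    rw [← AW_singleton, AW_AW, hU]
  rw [h1] at hx
  rw [h2]
  have h3 : ∀ z, Av (Dk k) core ((W.biUnion Dk).piecewise z x) = 0 :=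
    Av_eq_zero_of_nonneg (Av_nonneg _ (fun x => by rcases hc01 x with h | h <;> simp [h])) hx
  unfold AW
  rw [Av_apply]
  have h4 : ∀ z, Av (Dk k) y ((W.biUnion Dk).piecewise z x) = 0 := fun z => hs k (hW hk) _ (h3 z)
  simp only [h4]
  exact mean_const 0

lemma one_sub_L_bound (core : (D → Bool) → ℝ) (hc01 : ∀ x, core x = 0 ∨ core x = 1)
    (W : Finset ι) (η : ℝ) (hη0 : 0 ≤ η) (hη : η ≤ 1 / 2) (z)
    (hz : 1 - η ≤ AW Dk W core z) :
    AW Dk W (fun x => (1 - core x / AW Dk W core x) ^ 2) z ≤ 2 * η := by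
  have ha : (0 : ℝ) < AW Dk W core z := by linarith
  have h1 : AW Dk W (fun x => (1 - core x / AW Dk W core x) ^ 2) z =
      1 + (1 / (AW Dk W core z) ^ 2 - 2 / AW Dk W core z) * AW Dk W core z := by
    have hcs : ∀ w, AW Dk W core ((W.biUnion Dk).piecewise w z) = AW Dk W core z := by
      intro w
      unfold AW
      exact Av_congr_slice _ _ _ _
    have h2 : AW Dk W (fun x => (1 - core x / AW Dk W core x) ^ 2) z =
        mean (fun w => 1 + (1 / (AW Dk W core z) ^ 2 - 2 / AW Dk W core z) *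
          core ((W.biUnion Dk).piecewise w z)) := by
      conv_lhs => unfold AW
      rw [Av_apply]
      congr 1
      funext w
      have h3 := hcs w
      unfold AW at h3 ⊢
      rw [h3]
      rcases hc01 ((W.biUnion Dk).piecewise w z) with h | h
      · rw [h]; ring
      · rw [h]
        unfold AW at ha
        field_simp
        ring
    rw [h2, mean_add, mean_const, mean_smul]
    rfl
  rw [h1]
  have h4 : 1 + (1 / (AW Dk W core z) ^ 2 - 2 / AW Dk W core z) * AW Dk W core z =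
      (1 - AW Dk W core z) / AW Dk W core z := by
    field_simp
    ring
  rw [h4, div_le_iff₀ ha]
  nlinarith [mul_nonneg hη0 (sub_nonneg.2 hz), mul_nonneg hη0 (sub_nonneg.2 hη)]

lemma sub_TT (core : (D → Bool) → ℝ) (V : Finset ι) (y : (D → Bool) → ℝ)
    (hN : NN Dk V y = 0) :
    y - TT Dk core V y = ∑ W ∈ V.powerset.erase ∅, (-1 : ℝ) ^ (W.card + 1) •
      (AW Dk W y * fun x => (1 - core x / AW Dk W core x)) := by
  have h1 := sub_NN Dk V y
  rw [hN, sub_zero] at h1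
  rw [TT_apply]
  conv_lhs => rw [h1]
  rw [← sum_sub_distrib]
  apply sum_congr rfl
  intro W _
  rw [← smul_sub, ← h1]
  congr 1
  funext x
  simp only [Pi.sub_apply, Pi.mul_apply]
  ring

lemma TT_close (core : (D → Bool) → ℝ) (hc01 : ∀ x, core x = 0 ∨ core x = 1)
    (V : Finset ι) (η : ℝ) (hη0 : 0 ≤ η) (hη : η ≤ 1 / 2)
    (hc : ∀ x, core x = 1 → ∀ W ⊆ V, 1 - η ≤ AW Dk W core x)
    (y : (D → Bool) → ℝ) (hN : NN Dk V y = 0)
    (hs : ∀ k ∈ V, ∀ x, Av (Dk k) core x = 0 → Av (Dk k) y x = 0) (x) :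
    AW Dk V (fun z => (y - TT Dk core V y) z ^ 2) x ≤
      4 ^ V.card * (2 * η) * AW Dk V (fun z => y z ^ 2) x := by
  rw [sub_TT Dk core V y hN]
  simp only [Finset.sum_apply]
  have hnn : 0 ≤ AW Dk V (fun y' => y y' ^ 2) x := AW_nonneg _ _ (fun _ => sq_nonneg _) _
  refine (AW_sum_sq_le Dk V _ (fun W => (-1 : ℝ) ^ (W.card + 1) •
    (AW Dk W y * fun x => (1 - core x / AW Dk W core x)))
    (2 * η * AW Dk V (fun z => y z ^ 2) x) x ?_).trans ?_
  · intro W hW
    rw [mem_erase, mem_powerset] at hW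
    have hne := nonempty_iff_ne_empty.2 hW.1
    simp only [smul_sq]
    have h1 : AW Dk V (fun z => (AW Dk W y * fun x => (1 - core x / AW Dk W core x)) z ^ 2) =
        AW Dk V (AW Dk W
          (fun z => (AW Dk W y * fun x => (1 - core x / AW Dk W core x)) z ^ 2)) := by
      rw [AW_AW, union_eq_left.2 hW.2]
    rw [h1]
    have h2 : ∀ z, AW Dk W
        (fun z => (AW Dk W y * fun x => (1 - core x / AW Dk W core x)) z ^ 2) z ≤
        AW Dk W (fun z => 2 * η * y z ^ 2) z := by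
      intro z
      have hi : Ind (W.biUnion Dk) (fun z => AW Dk W y z ^ 2) := by
        intro w u
        have := AW_ind Dk W y w u
        simp only [this]
      have h3 : AW Dk W
        (fun z => (AW Dk W y * fun x => (1 - core x / AW Dk W core x)) z ^ 2) z =
        AW Dk W y z ^ 2 * AW Dk W (fun x => (1 - core x / AW Dk W core x) ^ 2) z := by
        have h4 := congrFun (hi.Av_mul (fun x => (1 - core x / AW Dk W core x) ^ 2)) z
        rw [Pi.mul_apply] at h4
        rw [show AW Dk W (fun x => (1 - core x / AW Dk W core x) ^ 2) z =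
          Av (W.biUnion Dk) (fun x => (1 - core x / AW Dk W core x) ^ 2) z from rfl, ← h4]
        rw [show (fun z => (AW Dk W y * fun x => (1 - core x / AW Dk W core x)) z ^ 2) =
          (fun z => AW Dk W y z ^ 2) * (fun x => (1 - core x / AW Dk W core x) ^ 2) from by
            funext u
            simp only [Pi.mul_apply, mul_pow]]
        rfl
      rw [h3]
      have h5 : AW Dk W (fun z => 2 * η * y z ^ 2) z = 2 * η * AW Dk W (fun z => y z ^ 2) z :=
        mean_smul _ _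
      rw [h5]
      have h6 : (AW Dk W y z) ^ 2 ≤ AW Dk W (fun z => y z ^ 2) z := AW_sq_le Dk W y z
      rcases AW_core_zero_or Dk core hc01 V η hc W hW.2 z with h | h
      · rw [AW_zero_of_core_zero Dk core hc01 V y hs W hW.2 hne z h]
        have : 0 ≤ AW Dk W (fun z => y z ^ 2) z := AW_nonneg _ _ (fun _ => sq_nonneg _) _
        simp only [ne_eq, OfNat.ofNat_ne_zero, not_false_eq_true, zero_pow, zero_mul]
        positivity
      · have h7 := one_sub_L_bound Dk core hc01 W η hη0 hη z h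
        have h8 : 0 ≤ (AW Dk W y z) ^ 2 := sq_nonneg _
        nlinarith
    refine (AW_mono Dk V h2 x).trans ?_
    rw [AW_AW, union_eq_left.2 hW.2]
    exact le_of_eq (mean_smul _ _)
  · have h1 := card_le_pow V
    have h2 : ((V.powerset.erase ∅).card : ℝ) ^ 2 ≤ (2 ^ V.card) ^ 2 :=
      pow_le_pow_left₀ (by positivity) h1 2
    have h3 : ((2 : ℝ) ^ V.card) ^ 2 = 4 ^ V.card := by
      rw [← pow_mul, mul_comm, pow_mul]; norm_num
    rw [h3] at h2
    rw [mul_assoc (4 ^ V.card) (2 * η)]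
    exact mul_le_mul_of_nonneg_right h2 (by positivity)

/-- the good-lambda lemma, abstract core version -/
lemma GL_core (core : (D → Bool) → ℝ) (hc01 : ∀ x, core x = 0 ∨ core x = 1)
    (V : Finset ι) (η : ℝ) (hη0 : 0 ≤ η) (hη : 8 * 16 ^ V.card * η ≤ 1)
    (hc : ∀ x, core x = 1 → ∀ W ⊆ V, 1 - η ≤ AW Dk W core x)
    (h : (D → Bool) → ℝ) (hN : NN Dk V h = 0)
    (hs : ∀ k ∈ V, ∀ x, Av (Dk k) core x = 0 → Av (Dk k) h x = 0) :
    ∃ τ : (D → Bool) → ℝ, (∀ x, core x = 0 → τ x = 0) ∧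
      (∀ k ∈ V, Av (Dk k) τ = Av (Dk k) h) ∧
      ∀ x, AW Dk V (fun z => τ z ^ 2) x ≤ 10 * AW Dk V (fun z => h z ^ 2) x := by
  have h16 : (1 : ℝ) ≤ 16 ^ V.card := one_le_pow₀ (by norm_num)
  have hη2 : η ≤ 1 / 2 := by nlinarith
  let Y : Submodule ℝ ((D → Bool) → ℝ) :=
    { carrier := {y | NN Dk V y = 0 ∧ ∀ k ∈ V, ∀ x, Av (Dk k) core x = 0 → Av (Dk k) y x = 0}
      add_mem' := by
        rintro a b ⟨ha1, ha2⟩ ⟨hb1, hb2⟩
        refine ⟨by rw [map_add, ha1, hb1, add_zero], ?_⟩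
        intro k hk x hx
        rw [map_add, Pi.add_apply, ha2 k hk x hx, hb2 k hk x hx, add_zero]
      zero_mem' := by
        refine ⟨map_zero _, ?_⟩
        intro k hk x hx
        rw [map_zero]
        rfl
      smul_mem' := by
        rintro c a ⟨ha1, ha2⟩
        refine ⟨by rw [map_smul, ha1, smul_zero], ?_⟩
        intro k hk x hx
        rw [map_smul, Pi.smul_apply, ha2 k hk x hx, smul_zero] }
  have hTY : ∀ y : (D → Bool) → ℝ,
      TT Dk core V y - NN Dk V (TT Dk core V y) ∈ Y := by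
    intro y
    refine ⟨NN_sub_NN Dk V _, ?_⟩
    intro k hk x hx
    rw [AW_sub_NN Dk V k hk]
    have h3 : ∀ z, core ((Dk k).piecewise z x) = 0 :=
      Av_eq_zero_of_nonneg (fun x => by rcases hc01 x with h | h <;> simp [h]) hx
    rw [Av_apply]
    have h4 : ∀ z, TT Dk core V y ((Dk k).piecewise z x) = 0 := fun z => TT_supp Dk core V y _ (h3 z)
    simp only [h4]
    exact mean_const 0
  let R : Y →ₗ[ℝ] Y := LinearMap.codRestrict Y
    ((((LinearMap.id : ((D → Bool) → ℝ) →ₗ[ℝ] _) - NN Dk V) ∘ₗ TT Dk core V) ∘ₗ Y.subtype)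
    (fun y => hTY y)
  have hclose : ∀ y : Y, ∀ x, AW Dk V (fun z => ((y : (D → Bool) → ℝ) z - (R y).1 z) ^ 2) x ≤
      (1 / 4) * AW Dk V (fun z => (y : (D → Bool) → ℝ) z ^ 2) x := by
    intro y x
    have h1 : ∀ z, (y : (D → Bool) → ℝ) z - (R y).1 z =
        ((y.1 - TT Dk core V y.1) - NN Dk V (y.1 - TT Dk core V y.1)) z := by
      intro z
      have : (R y).1 = TT Dk core V y.1 - NN Dk V (TT Dk core V y.1) := rfl
      rw [this, map_sub, y.2.1]
      simp only [Pi.sub_apply, Pi.zero_apply]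
      ring
    simp only [h1]
    refine (R0_bound Dk V _ x).trans ?_
    have h2 := TT_close Dk core hc01 V η hη0 hη2 hc y.1 y.2.1 y.2.2 x
    have hnn : 0 ≤ AW Dk V (fun y' => y.1 y' ^ 2) x := AW_nonneg _ _ (fun _ => sq_nonneg _) _
    have h3 : (4 : ℝ) ^ V.card * 4 ^ V.card = 16 ^ V.card := by
      rw [← mul_pow]; norm_num
    calc (4 : ℝ) ^ V.card * AW Dk V (fun z => (y.1 - TT Dk core V y.1) z ^ 2) x
        ≤ 4 ^ V.card * (4 ^ V.card * (2 * η) * AW Dk V (fun z => y.1 z ^ 2) x) := by gcongr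
      _ = (16 ^ V.card * (2 * η)) * AW Dk V (fun z => y.1 z ^ 2) x := by rw [← h3]; ring
      _ ≤ (1 / 4) * AW Dk V (fun z => y.1 z ^ 2) x := by
        gcongr
        linarith
  have hinj : Function.Injective R := by
    rw [injective_iff_map_eq_zero]
    intro y hy
    have h1 : ∀ x, AW Dk V (fun z => (y : (D → Bool) → ℝ) z ^ 2) x ≤ 0 := by
      intro x
      have := hclose y x
      rw [hy] at this
      simp only [ZeroMemClass.coe_zero, Pi.zero_apply, sub_zero] at this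
      linarith
    apply Subtype.ext
    funext x
    have h2 : AW Dk V (fun z => (y : (D → Bool) → ℝ) z ^ 2) x = 0 :=
      le_antisymm (h1 x) (AW_nonneg _ _ (fun _ => sq_nonneg _) _)
    have h3 := Av_eq_zero_of_nonneg (fun _ => sq_nonneg _) h2 x
    rw [piecewise_same] at h3
    simpa using h3
  obtain ⟨y, hy⟩ := LinearMap.surjective_of_injective hinj ⟨h, hN, hs⟩
  have hyv : TT Dk core V y.1 - NN Dk V (TT Dk core V y.1) = h := congrArg Subtype.val hy
  refine ⟨TT Dk core V y.1, fun x hx => TT_supp Dk core V _ x hx, ?_, ?_⟩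
  · intro k hk
    rw [← hyv, AW_sub_NN Dk V k hk]
  · intro x
    have h1 := hclose y x
    have h2 := TT_close Dk core hc01 V η hη0 hη2 hc y.1 y.2.1 y.2.2 x
    have hR : (R y).1 = h := hyv
    rw [hR] at h1
    have hnn : 0 ≤ AW Dk V (fun y' => y.1 y' ^ 2) x := AW_nonneg _ _ (fun _ => sq_nonneg _) _
    have h3 : 4 ^ V.card * (2 * η) ≤ 1 / 4 := by
      have : (4 : ℝ) ^ V.card ≤ 16 ^ V.card := pow_le_pow_left₀ (by norm_num) (by norm_num) _
      nlinarith
    have h4 : AW Dk V (fun z => (y.1 - TT Dk core V y.1) z ^ 2) x ≤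
        1 / 4 * AW Dk V (fun z => y.1 z ^ 2) x := h2.trans (by gcongr)
    -- ‖y‖² ≤ 2‖h‖² + 2‖y-h‖²
    have h5 : AW Dk V (fun z => y.1 z ^ 2) x ≤
        2 * AW Dk V (fun z => h z ^ 2) x + 2 * AW Dk V (fun z => (y.1 z - h z) ^ 2) x := by
      have e1 : AW Dk V (fun z => 2 * h z ^ 2 + 2 * (y.1 z - h z) ^ 2) x =
          2 * AW Dk V (fun z => h z ^ 2) x + 2 * AW Dk V (fun z => (y.1 z - h z) ^ 2) x := by
        unfold AW
        simp only [Av_apply]
        rw [mean_add, mean_smul, mean_smul]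
      rw [← e1]
      apply AW_mono
      intro z
      nlinarith [sq_nonneg (y.1 z - 2 * h z)]
    have h6 : AW Dk V (fun z => TT Dk core V y.1 z ^ 2) x ≤
        2 * AW Dk V (fun z => y.1 z ^ 2) x +
          2 * AW Dk V (fun z => (y.1 - TT Dk core V y.1) z ^ 2) x := by
      have e1 : AW Dk V (fun z => 2 * y.1 z ^ 2 + 2 * (y.1 - TT Dk core V y.1) z ^ 2) x =
          2 * AW Dk V (fun z => y.1 z ^ 2) x +
          2 * AW Dk V (fun z => (y.1 - TT Dk core V y.1) z ^ 2) x := by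
        unfold AW
        simp only [Av_apply]
        rw [mean_add, mean_smul, mean_smul]
      rw [← e1]
      apply AW_mono
      intro z
      simp only [Pi.sub_apply]
      nlinarith [sq_nonneg (2 * y.1 z - TT Dk core V y.1 z)]
    linarith

end Pool.Agent.LBern26
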